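import Pool.Agent.U731.SG.Sym
import Pool.Agent.R719.AT.Red

set_option autoImplicit false
set_option linter.unusedSectionVars false
set_option linter.style.haveILetI false

/-! Hermitian idempotent matrices over complex group rings have span at most one. -/

namespace Pool.Agent.U731.SG

open Matrix Pool.Agent.R719.AT Pool.Agent.U731.SP ComplexConjugate

section st

variable {G : Type} [Group G]

theorem st_add (x y : MonoidAlgebra ℂ G) : st (x + y) = st x + st y := by
  ext g
  rw [st_coeff, MonoidAlgebra.coeff_add, MonoidAlgebra.coeff_add, Finsupp.add_apply,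
    Finsupp.add_apply, st_coeff, st_coeff, map_add]

theorem st_zero : st (0 : MonoidAlgebra ℂ G) = 0 := by
  ext g
  rw [st_coeff, MonoidAlgebra.coeff_zero, Finsupp.coe_zero, Pi.zero_apply, Pi.zero_apply, map_zero]

theorem st_single (g : G) (c : ℂ) :
    st (MonoidAlgebra.single g c) = MonoidAlgebra.single g⁻¹ (conj c) := by
  classical
  ext h
  rw [st_coeff, MonoidAlgebra.coeff_single, MonoidAlgebra.coeff_single, Finsupp.single_apply,
    Finsupp.single_apply]
  by_cases h1 : g = h⁻¹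
  · rw [if_pos h1, if_pos (by rw [h1, inv_inv])]
  · rw [if_neg h1, if_neg (fun h2 => h1 (by rw [← h2, inv_inv])), map_zero]

theorem st_mul (x y : MonoidAlgebra ℂ G) : st (x * y) = st y * st x := by
  induction x using MonoidAlgebra.induction_linear with
  | zero => rw [zero_mul, st_zero, mul_zero]
  | add a b ha hb => rw [add_mul, st_add, ha, hb, st_add, mul_add]
  | single g c =>
    induction y using MonoidAlgebra.induction_linear with
    | zero => rw [mul_zero, st_zero, zero_mul]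
    | add a b ha hb => rw [mul_add, st_add, ha, hb, st_add, add_mul]
    | single h d =>
      rw [MonoidAlgebra.single_mul_single, st_single, st_single, st_single,
        MonoidAlgebra.single_mul_single, map_mul, _root_.mul_inv_rev, mul_comm (conj d)]

theorem st_sum {ι : Type} (s : Finset ι) (f : ι → MonoidAlgebra ℂ G) :
    st (∑ i ∈ s, f i) = ∑ i ∈ s, st (f i) := by
  classical
  induction s using Finset.induction_on with
  | empty => rw [Finset.sum_empty, Finset.sum_empty, st_zero]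
  | insert a s ha ih => rw [Finset.sum_insert ha, Finset.sum_insert ha, st_add, ih]

theorem st_st (x : MonoidAlgebra ℂ G) : st (st x) = x := by
  ext g
  rw [st_coeff, st_coeff, inv_inv, Complex.conj_conj]

end st

section ip

variable {G : Type} [Group G] {κ : Type} [Fintype κ]

/-- the inner product of row vectors -/
noncomputable def ipc (z x : κ → MonoidAlgebra ℂ G) : ℂ := (∑ j, z j * st (x j)).coeff 1

theorem ipc_eq (z x : κ → MonoidAlgebra ℂ G) :
    ipc z x = ∑ j, ∑ g ∈ (x j).coeff.support, (z j).coeff g * conj ((x j).coeff g) := by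
  classical
  unfold ipc
  rw [MonoidAlgebra.coeff_sum, Finsupp.finsetSum_apply]
  refine Finset.sum_congr rfl fun j _ => ?_
  rw [MonoidAlgebra.coeff_mul_apply_left]
  change ∑ h ∈ (z j).coeff.support, (z j).coeff h * (st (x j)).coeff (h⁻¹ * 1) = _
  have h1 : ∀ h, (z j).coeff h * (st (x j)).coeff (h⁻¹ * 1)
      = (z j).coeff h * conj ((x j).coeff h) := by
    intro h
    rw [mul_one, st_coeff, inv_inv]
  simp only [h1]
  rw [Finset.sum_subset (Finset.subset_union_left (s₂ := (x j).coeff.support)),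
    ← Finset.sum_subset (Finset.subset_union_right (s₁ := (z j).coeff.support))]
  · intro g _ hg
    rw [Finsupp.notMem_support_iff.1 hg, map_zero, mul_zero]
  · intro g _ hg
    rw [Finsupp.notMem_support_iff.1 hg, zero_mul]

theorem quad_ipc (A : Matrix κ κ (MonoidAlgebra ℂ G)) (x : κ → MonoidAlgebra ℂ G) :
    quad A x = ipc (x ᵥ* A) x := by
  rw [ipc_eq]
  rfl

theorem nsq_ipc (x : κ → MonoidAlgebra ℂ G) : nsq x = (ipc x x).re := by
  rw [ipc_eq]
  unfold nsq
  rw [Complex.re_sum]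
  refine Finset.sum_congr rfl fun j _ => ?_
  rw [Complex.re_sum]
  refine Finset.sum_congr rfl fun g _ => ?_
  rw [Complex.mul_conj, Complex.ofReal_re, Complex.normSq_eq_norm_sq]

theorem nsq_nonneg (x : κ → MonoidAlgebra ℂ G) : 0 ≤ nsq x :=
  Finset.sum_nonneg fun _ _ => Finset.sum_nonneg fun _ _ => sq_nonneg _

theorem ipc_adj (A : Matrix κ κ (MonoidAlgebra ℂ G)) (z x : κ → MonoidAlgebra ℂ G) :
    ipc (z ᵥ* A) x = ipc z (x ᵥ* sta A) := by
  unfold ipc
  congr 2
  have h1 : ∀ j, (z ᵥ* A) j * st (x j) = ∑ i, z i * (A i j * st (x j)) := by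
    intro j
    simp only [Matrix.vecMul, dotProduct]
    rw [Finset.sum_mul]
    exact Finset.sum_congr rfl fun i _ => mul_assoc _ _ _
  have h2 : ∀ i, z i * st ((x ᵥ* sta A) i) = ∑ j, z i * (A i j * st (x j)) := by
    intro i
    simp only [Matrix.vecMul, dotProduct]
    rw [st_sum, Finset.mul_sum]
    refine Finset.sum_congr rfl fun j _ => ?_
    rw [st_mul]
    congr 2
    exact st_st _
  simp only [h1, h2]
  exact Finset.sum_comm

theorem sta_eq {A : Matrix κ κ (MonoidAlgebra ℂ G)} (hA : Herm A) : sta A = A := by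
  ext i j g
  change (st (A j i)).coeff g = _
  rw [st_coeff]
  have := hA i j g
  rw [this]
  exact Complex.conj_conj _

theorem quad_idem {A : Matrix κ κ (MonoidAlgebra ℂ G)} (hA : Herm A) (hid : A * A = A)
    (x : κ → MonoidAlgebra ℂ G) : (quad A x).re = nsq (x ᵥ* A) := by
  rw [quad_ipc, nsq_ipc]
  congr 1
  have h1 : x ᵥ* A = (x ᵥ* A) ᵥ* A := by rw [Matrix.vecMul_vecMul, hid]
  conv_lhs => rw [h1]
  rw [ipc_adj, sta_eq hA]

/-- **Hermitian idempotents have span at most one.** -/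
theorem span_idem [DecidableEq κ] {A : Matrix κ κ (MonoidAlgebra ℂ G)} (hA : Herm A)
    (hid : A * A = A) : SP.SpanLE A 1 := by
  refine ⟨0, fun x => ?_⟩
  have h1 := quad_idem hA hid x
  have hA' : Herm (1 - A) := by
    intro i j g
    rw [Matrix.sub_apply, Matrix.sub_apply, MonoidAlgebra.coeff_sub, MonoidAlgebra.coeff_sub,
      Finsupp.sub_apply, Finsupp.sub_apply, hA i j g, map_sub]
    congr 1
    classical
    rw [Matrix.one_apply, Matrix.one_apply]
    by_cases h : i = j
    · subst h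
      rw [if_pos rfl, MonoidAlgebra.one_def, MonoidAlgebra.coeff_single, Finsupp.single_apply,
        Finsupp.single_apply]
      by_cases h2 : (1 : G) = g
      · rw [if_pos h2, if_pos (by rw [← h2, inv_one]), map_one]
      · rw [if_neg h2, if_neg (fun h3 => h2 (by rw [← inv_inv g, ← h3, inv_one])), map_zero]
    · rw [if_neg h, if_neg (Ne.symm h)]
      exact (map_zero _).symm
  have hid' : (1 - A) * (1 - A) = 1 - A := by
    rw [Matrix.mul_sub, Matrix.sub_mul, Matrix.sub_mul, hid, Matrix.mul_one, Matrix.one_mul,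
      sub_self, sub_zero, Matrix.mul_one]
  have h2 := quad_idem hA' hid' x
  have h3 : quad (1 - A) x = ipc x x - quad A x := by
    rw [quad_ipc, quad_ipc, Matrix.vecMul_sub, Matrix.vecMul_one]
    unfold ipc
    rw [← Finsupp.sub_apply, ← MonoidAlgebra.coeff_sub, ← Finset.sum_sub_distrib]
    congr 2
    refine Finset.sum_congr rfl fun j _ => ?_
    rw [Pi.sub_apply, sub_mul]
  rw [h3, Complex.sub_re, ← nsq_ipc] at h2
  have h4 := nsq_nonneg (x ᵥ* A)
  have h5 := nsq_nonneg (x ᵥ* (1 - A))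
  change 0 * nsq x ≤ (quad A x).re ∧ (quad A x).re ≤ (0 + 1) * nsq x
  constructor <;> linarith

/-- scaling -/
theorem span_smul (A : Matrix κ κ (MonoidAlgebra ℂ G)) (s c : ℝ) (hc : 0 < c)
    (h : SP.SpanLE A s) :
    SP.SpanLE (fun i j => (c : ℂ) • A i j : Matrix κ κ (MonoidAlgebra ℂ G)) (c * s) := by
  obtain ⟨m, hm⟩ := h
  refine ⟨c * m, fun x => ?_⟩
  have h1 : quad (fun i j => (c : ℂ) • A i j : Matrix κ κ (MonoidAlgebra ℂ G)) x
      = (c : ℂ) * quad A x := by
    unfold quad
    rw [Finset.mul_sum]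
    refine Finset.sum_congr rfl fun j _ => ?_
    rw [Finset.mul_sum]
    refine Finset.sum_congr rfl fun g _ => ?_
    have h2 : (x ᵥ* (fun i j => (c : ℂ) • A i j : Matrix κ κ (MonoidAlgebra ℂ G))) j
        = (c : ℂ) • (x ᵥ* A) j := by
      simp only [Matrix.vecMul, dotProduct]
      rw [Finset.smul_sum]
      exact Finset.sum_congr rfl fun i _ => mul_smul_comm _ _ _
    rw [h2, MonoidAlgebra.coeff_smul, Finsupp.smul_apply, smul_eq_mul, mul_assoc]
  have h2 := hm x
  rw [h1]
  change c * m * nsq x ≤ ((c : ℂ) * quad A x).re ∧ ((c : ℂ) * quad A x).re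
    ≤ (c * m + c * s) * nsq x
  rw [Complex.re_ofReal_mul]
  have h3 : m * nsq x ≤ (quad A x).re := h2.1
  have h4 : (quad A x).re ≤ (m + s) * nsq x := h2.2
  constructor <;> nlinarith

/-- **The structure of projections with large coefficients.** -/
theorem struct_idem [DecidableEq κ] {A : Matrix κ κ (MonoidAlgebra ℂ G)}
    (hA : ∀ i j g, (A j i).coeff g⁻¹ = conj ((A i j).coeff g)) (hid : A * A = A)
    (δ : ℝ) (hδ : 0 < δ)
    (hbig : ∀ i j g, (A i j).coeff g ≠ 0 → (i = j ∧ g = 1) ∨ δ ≤ ‖(A i j).coeff g‖) :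
    (1 ≤ 18 * δ ^ 2 → ∃ (ρ : κ → κ) (u : κ → G) (C : κ → Subgroup G),
      (∀ a, TH6.PF.IsVC (C a)) ∧
      ∀ i j g, (A i j).coeff g ≠ 0 → ρ i = ρ j ∧ u i * g * (u j)⁻¹ ∈ C (ρ i)) ∧
    (1 < 4 * δ → ∃ (ρ : κ → κ) (u : κ → G) (C : κ → Subgroup G),
      (∀ a, Finite (C a)) ∧
      ∀ i j g, (A i j).coeff g ≠ 0 → ρ i = ρ j ∧ u i * g * (u j)⁻¹ ∈ C (ρ i)) := by
  let A' : Matrix κ κ (MonoidAlgebra ℂ G) := fun i j => ((δ⁻¹ : ℝ) : ℂ) • A i j
  have hA' : ∀ i j g, (A' i j).coeff g = ((δ⁻¹ : ℝ) : ℂ) * (A i j).coeff g := fun i j g => rfl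
  have hd0 : ((δ⁻¹ : ℝ) : ℂ) ≠ 0 := by
    rw [Ne, Complex.ofReal_eq_zero]
    exact inv_ne_zero hδ.ne'
  have h1 : Herm A' := by
    intro i j g
    rw [hA', hA', hA, map_mul, Complex.conj_ofReal]
  have h2 : BigOff A' := by
    intro i j g h
    rw [hA'] at h ⊢
    rcases hbig i j g (right_ne_zero_of_mul h) with h1 | h1
    · exact Or.inl h1
    · right
      rw [norm_mul, Complex.norm_real, Real.norm_eq_abs, abs_of_pos (inv_pos.2 hδ)]
      calc 1 = δ⁻¹ * δ := by rw [inv_mul_cancel₀ hδ.ne']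
        _ ≤ _ := mul_le_mul_of_nonneg_left h1 (inv_nonneg.2 hδ.le)
  have h3 : SP.SpanLE A' (δ⁻¹ * 1) := span_smul A 1 δ⁻¹ (inv_pos.2 hδ) (span_idem hA hid)
  rw [mul_one] at h3
  constructor
  · intro hs
    obtain ⟨ρ, u, C, hC, hst⟩ := herm_struct A' h1 h2 δ⁻¹ (by
      rw [inv_pow, inv_le_iff_one_le_mul₀ (by positivity)]
      linarith) h3
    refine ⟨ρ, u, C, hC, fun i j g hg => hst i j g ?_⟩
    rw [hA']
    exact mul_ne_zero hd0 hg
  · intro hs
    obtain ⟨ρ, u, C, hC, hst⟩ := herm_struct_gen A' h1 (fun C => Finite C)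
      fun b => hst_finite A' h1 h2 δ⁻¹ (by
        rw [inv_lt_iff_one_lt_mul₀ hδ]
        linarith) h3 b
    refine ⟨ρ, u, C, hC, fun i j g hg => hst i j g ?_⟩
    rw [hA']
    exact mul_ne_zero hd0 hg

end ip

end Pool.Agent.U731.SG
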