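import Pool.Agent.U731.SG.Gen
import Pool.Agent.U731.SP.Ati
import Pool.Agent.N510.CT.KOne
import Pool.Agent.TH6.CX.Base

set_option autoImplicit false
set_option linter.style.haveILetI false
set_option linter.unusedSectionVars false

/-! Matrices over the group ring of any ring which are supported in a hermitian complex matrix of
small spectral span. -/

namespace Pool.Agent.U731.SG

open Matrix TH57.Thr TH6.LF TH6.PF Pool.Agent.N510 Pool.Agent.U731.SP ComplexConjugate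

section span

variable {G : Type} [Group G] {κ : Type} [Fintype κ]

/-- The span of a complex matrix, in terms of coefficient functions. -/
def SpanK (S : Matrix κ κ (MonoidAlgebra ℂ G)) (s : ℝ) : Prop :=
  ∃ a : ℝ, ∀ (T : Finset (κ × G)) (x : κ × G → ℂ),
    a * ∑ p ∈ T, ‖x p‖ ^ 2
      ≤ (∑ p ∈ T, ∑ q ∈ T, x p * (S p.1 q.1).coeff (p.2⁻¹ * q.2) * conj (x q)).re ∧
    (∑ p ∈ T, ∑ q ∈ T, x p * (S p.1 q.1).coeff (p.2⁻¹ * q.2) * conj (x q)).re
      ≤ (a + s) * ∑ p ∈ T, ‖x p‖ ^ 2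

theorem spanLE_of_spanK [DecidableEq κ] (S : Matrix κ κ (MonoidAlgebra ℂ G)) (s : ℝ)
    (h : SpanK S s) : SP.SpanLE S s := by
  classical
  obtain ⟨a, ha⟩ := h
  refine ⟨a, fun y => ?_⟩
  let T : Finset (G × κ) := Finset.univ.biUnion fun i =>
    (y i).coeff.support.image fun g => (g, i)
  let f : G × κ → ℂ := fun p => (y p.2).coeff p.1
  have hy : y = rv T f := by
    funext i
    ext g
    rw [rv_coeff]
    split_ifs with h1
    · rfl
    · by_contra h2
      apply h1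
      rw [Finset.mem_biUnion]
      exact ⟨i, Finset.mem_univ _, Finset.mem_image_of_mem _ (Finsupp.mem_support_iff.2 h2)⟩
  have h1 := ha (T.map (Equiv.prodComm G κ).toEmbedding) (fun p => f (p.2, p.1))
  simp only [Finset.sum_map, Equiv.coe_toEmbedding, Equiv.prodComm_apply, Prod.fst_swap,
    Prod.snd_swap, Prod.mk.eta] at h1
  rw [hy, nsq_rv, quad_rv]
  exact h1

/-- an integral matrix over the complex numbers -/
noncomputable def cxM (Q : Matrix κ κ (MonoidAlgebra ℤ G)) : Matrix κ κ (MonoidAlgebra ℂ G) :=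
  Q.map (MonoidAlgebra.mapRingHom G (Int.castRingHom ℂ))

theorem cxM_coeff (Q : Matrix κ κ (MonoidAlgebra ℤ G)) (i j : κ) (g : G) :
    (cxM Q i j).coeff g = (((Q i j).coeff g : ℤ) : ℂ) := by
  simp [cxM, MonoidAlgebra.coeff_mapRingHom]

theorem spanK_of_int [DecidableEq κ] (Q : Matrix κ κ (MonoidAlgebra ℤ G)) (s : ℝ)
    (h : SP.SpanLE (toReal Q) s) : SpanK (cxM Q) s := by
  classical
  obtain ⟨a, ha⟩ := h
  refine ⟨a, fun S x => ?_⟩
  have key : ∀ y : κ × G → ℝ, a * ∑ p ∈ S, y p ^ 2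
      ≤ ∑ p ∈ S, ∑ q ∈ S, y p * ((Q p.1 q.1).coeff (p.2⁻¹ * q.2) : ℝ) * y q ∧
      ∑ p ∈ S, ∑ q ∈ S, y p * ((Q p.1 q.1).coeff (p.2⁻¹ * q.2) : ℝ) * y q
        ≤ (a + s) * ∑ p ∈ S, y p ^ 2 := by
    intro y
    have h1 := hw_bounds (toReal Q) a s ha (S.map (Equiv.prodComm κ G).toEmbedding)
      (fun p => y (p.2, p.1))
    simp only [Finset.sum_map, Equiv.coe_toEmbedding, Equiv.prodComm_apply, Prod.fst_swap,
      Prod.snd_swap, Prod.mk.eta, Real.norm_eq_abs, sq_abs, conj_trivial, RCLike.re_to_real, hw,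
      toReal_coeff] at h1
    exact h1
  have h1 := key fun p => (x p).re
  have h2 := key fun p => (x p).im
  have h3 : ∑ p ∈ S, ‖x p‖ ^ 2 = ∑ p ∈ S, (x p).re ^ 2 + ∑ p ∈ S, (x p).im ^ 2 := by
    rw [← Finset.sum_add_distrib]
    refine Finset.sum_congr rfl fun p _ => ?_
    rw [← Complex.normSq_eq_norm_sq, Complex.normSq_apply]
    ring
  have h4 : (∑ p ∈ S, ∑ q ∈ S, x p * (cxM Q p.1 q.1).coeff (p.2⁻¹ * q.2) * conj (x q)).re
      = ∑ p ∈ S, ∑ q ∈ S, (x p).re * ((Q p.1 q.1).coeff (p.2⁻¹ * q.2) : ℝ) * (x q).re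
      + ∑ p ∈ S, ∑ q ∈ S, (x p).im * ((Q p.1 q.1).coeff (p.2⁻¹ * q.2) : ℝ) * (x q).im := by
    rw [Complex.re_sum, ← Finset.sum_add_distrib]
    refine Finset.sum_congr rfl fun p _ => ?_
    rw [Complex.re_sum, ← Finset.sum_add_distrib]
    refine Finset.sum_congr rfl fun q _ => ?_
    have h5 : (cxM Q p.1 q.1).coeff (p.2⁻¹ * q.2)
        = (((Q p.1 q.1).coeff (p.2⁻¹ * q.2) : ℝ) : ℂ) := by
      rw [cxM_coeff]
      push_cast
      rfl
    rw [h5]
    simp only [Complex.mul_re, Complex.mul_im, Complex.ofReal_re, Complex.ofReal_im,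
      Complex.conj_re, Complex.conj_im]
    ring
  rw [h3, h4]
  constructor <;> linarith [h1.1, h1.2, h2.1, h2.2]

end span

section struct

variable {R : Type} [Ring R] {G : Type} [Group G] {κ : Type} [Fintype κ] [DecidableEq κ]

/-- `A` is supported in the support of a hermitian complex matrix with span at most `s` whose nonzero
coefficients, except those of the identity on the diagonal, have absolute value at least one. -/
def SmallSpan (A : Matrix κ κ (MonoidAlgebra R G)) (s : ℝ) : Prop :=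
  ∃ S : Matrix κ κ (MonoidAlgebra ℂ G),
    (∀ i j g, (S j i).coeff g⁻¹ = conj ((S i j).coeff g)) ∧
    (∀ i j g, (S i j).coeff g ≠ 0 → (i = j ∧ g = 1) ∨ 1 ≤ ‖(S i j).coeff g‖) ∧
    (∀ i j g, (A i j).coeff g ≠ 0 → (i = j ∧ g = 1) ∨ (S i j).coeff g ≠ 0) ∧ SpanK S s

/-- the blocks of a matrix with a block structure -/
theorem blocks_of_struct (Q : Subgroup G → Prop) (A : Matrix κ κ (MonoidAlgebra R G))
    (ρ : κ → κ) (u : κ → G) (C : κ → Subgroup G) (hC : ∀ a, Q (C a))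
    (hst : ∀ i j g, (A i j).coeff g ≠ 0 → ρ i = ρ j ∧ u i * g * (u j)⁻¹ ∈ C (ρ i)) :
    ∃ (θ : ∀ a, Matrix {i // ρ i = a} {i // ρ i = a} (MonoidAlgebra R (C a))),
      (∀ a, Q (C a)) ∧ (dmU R u).val * A * (dmU R u)⁻¹.val = blockSum ρ ρ C θ ∧
      (IsUnit A → ∀ a, IsUnit (θ a)) := by
  classical
  set B := (dmU R u).val * A * (dmU R u)⁻¹.val with hBd
  have hBs : ∀ i j g, (B i j).coeff g ≠ 0 → ρ i = ρ j ∧ g ∈ C (ρ i) := by
    intro i j g hg
    rw [hBd, coeff_dmU] at hg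
    have h1 := hst i j _ hg
    refine ⟨h1.1, ?_⟩
    have h2 := h1.2
    have h3 : u i * ((u i)⁻¹ * g * u j) * (u j)⁻¹ = g := by group
    rwa [h3] at h2
  refine ⟨blk ρ ρ C B, hC, (blockSum_blk ρ ρ C B hBs).symm, ?_⟩
  rintro ⟨v, hv⟩ a
  let w : (Matrix κ κ (MonoidAlgebra R G))ˣ := dmU R u * v * (dmU R u)⁻¹
  have hw : w.val = B := by
    rw [hBd, ← hv]
    rfl
  have h1 := blk_mul ρ ρ C B w⁻¹.val (by rw [← hw]; exact w.mul_inv) hBs a
  have h2 := blk_mul' ρ ρ C B w⁻¹.val (by rw [← hw]; exact w.inv_mul) hBs a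
  exact ⟨⟨_, _, h1, h2⟩, rfl⟩

theorem mem_gen_of_struct (A : (Matrix κ κ (MonoidAlgebra R G))ˣ)
    (ρ : κ → κ) (u : κ → G) (C : κ → Subgroup G) (hC : ∀ a, IsVC (C a))
    (hst : ∀ i j g, (A.val i j).coeff g ≠ 0 → ρ i = ρ j ∧ u i * g * (u j)⁻¹ ∈ C (ρ i)) :
    A ∈ VCGen R G κ := by
  set B : (Matrix κ κ (MonoidAlgebra R G))ˣ := dmU R u * A * (dmU R u)⁻¹ with hBd
  have hBs : ∀ i j g, (B.val i j).coeff g ≠ 0 → ρ i = ρ j ∧ g ∈ C (ρ i) := by
    intro i j g hg
    rw [hBd, Units.val_mul, Units.val_mul, coeff_dmU] at hg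
    have h1 := hst i j _ hg
    refine ⟨h1.1, ?_⟩
    have h2 := h1.2
    have h3 : u i * ((u i)⁻¹ * g * u j) * (u j)⁻¹ = g := by group
    rwa [h3] at h2
  have h1 := diag_mem C hC ρ B hBs
  have h2 : A = (dmU R u)⁻¹ * B * dmU R u := by rw [hBd]; group
  rw [h2]
  exact mul_mem (mul_mem (inv_mem (dmU_mem u)) h1) (dmU_mem u)

/-- **Matrices supported in a pattern of small span.** -/
theorem smallSpan_vc (s : ℝ) (hs : s ^ 2 ≤ 18) (A : Matrix κ κ (MonoidAlgebra R G))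
    (hA : SmallSpan A s) :
    ∃ (ρ : κ → κ) (u : κ → G) (C : κ → Subgroup G), (∀ a, IsVC (C a)) ∧
      ∀ i j g, (A i j).coeff g ≠ 0 → ρ i = ρ j ∧ u i * g * (u j)⁻¹ ∈ C (ρ i) := by
  obtain ⟨S, h1, h2, h3, h4⟩ := hA
  obtain ⟨ρ, u, C, hC, hst⟩ := herm_struct S h1 h2 s hs (spanLE_of_spanK S s h4)
  refine ⟨ρ, u, C, hC, fun i j g hg => ?_⟩
  rcases h3 i j g hg with ⟨h5, h6⟩ | h5
  · subst h5 h6
    refine ⟨rfl, ?_⟩
    rw [mul_one, mul_inv_cancel]
    exact one_mem _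
  · exact hst i j g h5

theorem smallSpan_fin (s : ℝ) (hs : s < 4) (A : Matrix κ κ (MonoidAlgebra R G))
    (hA : SmallSpan A s) :
    ∃ (ρ : κ → κ) (u : κ → G) (C : κ → Subgroup G), (∀ a, Finite (C a)) ∧
      ∀ i j g, (A i j).coeff g ≠ 0 → ρ i = ρ j ∧ u i * g * (u j)⁻¹ ∈ C (ρ i) := by
  obtain ⟨S, h1, h2, h3, h4⟩ := hA
  obtain ⟨ρ, u, C, hC, hst⟩ := herm_struct_gen S h1 (fun C => Finite C)
    fun b => hst_finite S h1 h2 s hs (spanLE_of_spanK S s h4) b
  refine ⟨ρ, u, C, hC, fun i j g hg => ?_⟩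
  rcases h3 i j g hg with ⟨h5, h6⟩ | h5
  · subst h5 h6
    refine ⟨rfl, ?_⟩
    rw [mul_one, mul_inv_cancel]
    exact one_mem _
  · exact hst i j g h5

end struct

section sharp

variable {R : Type} {G : Type} [Group G]

/-- the permutation matrix -/
noncomputable def pmU (R : Type) [Ring R] (G : Type) [Group G] {κ : Type} [Fintype κ]
    [DecidableEq κ] (σ : Equiv.Perm κ) : (Matrix κ κ (MonoidAlgebra R G))ˣ where
  val := (1 : Matrix κ κ (MonoidAlgebra R G)).submatrix σ (Equiv.refl κ)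
  inv := (1 : Matrix κ κ (MonoidAlgebra R G)).submatrix (Equiv.refl κ) σ
  val_inv := by
    rw [Matrix.submatrix_mul_equiv, mul_one, Matrix.submatrix_one_equiv]
  inv_val := by
    rw [Matrix.submatrix_mul_equiv, mul_one]
    rfl

theorem pmU_mem [Ring R] {κ : Type} [Fintype κ] [DecidableEq κ] (σ : Equiv.Perm κ) :
    pmU R G σ ∈ VCGen R G κ := by
  classical
  refine gen_of_supp _ ⊥ isVC_bot fun i j g hg => ?_
  change ((1 : Matrix κ κ (MonoidAlgebra R G)) (σ i) j).coeff g ≠ 0 at hg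
  rw [Matrix.one_apply] at hg
  split_ifs at hg with h
  · rw [MonoidAlgebra.one_def, MonoidAlgebra.coeff_single, Finsupp.single_apply] at hg
    split_ifs at hg with h2
    · rw [← h2]; exact one_mem _
    · exact absurd rfl hg
  · exact absurd rfl hg

/-- The support of an invertible matrix over a commutative coefficient ring contains the support of
a monomial matrix. -/
theorem exists_transversal [CommRing R] [Nontrivial R] {κ : Type} [Fintype κ] [DecidableEq κ]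
    (A : (Matrix κ κ (MonoidAlgebra R G))ˣ) :
    ∃ (π : Equiv.Perm κ) (g : κ → G), ∀ i, (A.val (π i) i).coeff (g i) ≠ 0 := by
  let au : MonoidAlgebra R G →+* R := (MonoidAlgebra.lift R R G 1).toRingHom
  let B : (Matrix κ κ R)ˣ := Units.map (mpm (κ := κ) au) A
  have h1 : B.val.det ≠ 0 := by
    have h2 : IsUnit B.val.det := (Matrix.isUnit_iff_isUnit_det _).1 B.isUnit
    exact h2.ne_zero
  rw [Matrix.det_apply] at h1
  obtain ⟨π, -, hπ⟩ := Finset.exists_ne_zero_of_sum_ne_zero h1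
  have h3 : ∀ i, A.val (π i) i ≠ 0 := by
    intro i h4
    apply hπ
    have h5 : B.val (π i) i = 0 := by
      change au (A.val (π i) i) = 0
      rw [h4, map_zero]
    have h6 : ∏ k, B.val (π k) k = 0 := Finset.prod_eq_zero (Finset.mem_univ i) h5
    rw [h6, smul_zero]
  have h4 : ∀ i, ∃ g : G, (A.val (π i) i).coeff g ≠ 0 := by
    intro i
    by_contra hcon
    push Not at hcon
    apply h3 i
    ext g
    exact hcon g
  choose g hg using h4
  exact ⟨π, g, hg⟩

variable [CommRing R] [Nontrivial R] {κ : Type} [Fintype κ] [DecidableEq κ]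

theorem normLE_corner (P : Matrix κ κ (MonoidAlgebra ℤ G)) (c : ℝ) (h : NormLE P c) :
    NormLE (fromBlocks 0 P 0 0 : Matrix (κ ⊕ κ) (κ ⊕ κ) (MonoidAlgebra ℤ G)) c := by
  intro x
  have h1 : toReal (fromBlocks 0 P 0 0 : Matrix (κ ⊕ κ) (κ ⊕ κ) (MonoidAlgebra ℤ G))
      = fromBlocks 0 (toReal P) 0 0 := by
    ext i j g
    rcases i with i | i <;> rcases j with j | j <;> simp [toReal]
  rw [h1]
  have h2 : x ᵥ* (fromBlocks 0 (toReal P) 0 0 : Matrix (κ ⊕ κ) (κ ⊕ κ) (MonoidAlgebra ℝ G))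
      = Sum.elim (0 : κ → MonoidAlgebra ℝ G) ((x ∘ Sum.inl) ᵥ* toReal P) := by
    rw [Matrix.vecMul_fromBlocks]
    simp
  rw [h2]
  have h3 := h (x ∘ Sum.inl)
  have h4 : normSq (Sum.elim (0 : κ → MonoidAlgebra ℝ G) ((x ∘ Sum.inl) ᵥ* toReal P))
      = normSq ((x ∘ Sum.inl) ᵥ* toReal P) := by
    unfold normSq
    rw [Fintype.sum_sum_type]
    simp
  have h5 : normSq (x ∘ Sum.inl) ≤ normSq x := by
    unfold normSq
    rw [Fintype.sum_sum_type]
    have : 0 ≤ ∑ i : κ, ∑ g ∈ (x (Sum.inr i)).coeff.support, (x (Sum.inr i)).coeff g ^ 2 :=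
      Finset.sum_nonneg fun i _ => Finset.sum_nonneg fun g _ => sq_nonneg _
    simp only [Function.comp_apply]
    linarith
  rw [h4]
  exact h3.trans (mul_le_mul_of_nonneg_left h5 (sq_nonneg c))

theorem smallSpan_double (A : (Matrix κ κ (MonoidAlgebra R G))ˣ) (c : ℝ) (hc : 0 < c)
    (hA : ThinLE A.val c) :
    ∃ V : (Matrix (κ ⊕ κ) (κ ⊕ κ) (MonoidAlgebra R G))ˣ, V ∈ VCGen R G (κ ⊕ κ) ∧
      (∀ S : Set R, (1 : R) ∈ S → LT.CS S A.val →
        LT.CS S (fromBlocks A.val 0 0 1 * V.val)) ∧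
      SmallSpan (fromBlocks A.val 0 0 1 * V.val) (2 * c) := by
  classical
  obtain ⟨π, g, hg⟩ := exists_transversal A
  -- `π i` row, `i` column; the lower left block has `(i, π i)` entry `(g i)⁻¹`
  let σ : Equiv.Perm (κ ⊕ κ) := (Equiv.sumComm κ κ).trans (Equiv.sumCongr π (Equiv.refl κ))
  have hσ1 : ∀ i, σ (Sum.inl i) = Sum.inr i := fun i => rfl
  have hσ2 : ∀ i, σ (Sum.inr i) = Sum.inl (π i) := fun i => rfl
  let w : κ ⊕ κ → G := Sum.elim (fun _ => 1) (fun i => (g i)⁻¹)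
  let V : (Matrix (κ ⊕ κ) (κ ⊕ κ) (MonoidAlgebra R G))ˣ := dmU R w * pmU R G σ
  have hV : ∀ p q, V.val p q = if σ p = q then MonoidAlgebra.single (w p) 1 else 0 := by
    intro p q
    change (Matrix.diagonal (fun i => MonoidAlgebra.single (w i) (1 : R))
      * ((1 : Matrix (κ ⊕ κ) (κ ⊕ κ) (MonoidAlgebra R G)).submatrix σ (Equiv.refl _)) :
        Matrix (κ ⊕ κ) (κ ⊕ κ) (MonoidAlgebra R G)) p q = _
    rw [Matrix.diagonal_mul, Matrix.submatrix_apply]
    change _ * (1 : Matrix (κ ⊕ κ) (κ ⊕ κ) (MonoidAlgebra R G)) (σ p) q = _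
    by_cases h : σ p = q
    · rw [if_pos h, h, Matrix.one_apply_eq, mul_one]
    · rw [if_neg h, Matrix.one_apply_ne h, mul_zero]
  let U : Matrix κ κ (MonoidAlgebra R G) := Matrix.of fun i j =>
    if π i = j then MonoidAlgebra.single (g i)⁻¹ 1 else 0
  have hVb : V.val = fromBlocks 0 1 U 0 := by
    ext1 p q
    rw [hV]
    rcases p with i | i <;> rcases q with j | j
    · rw [hσ1, if_neg (by simp)]
      rfl
    · rw [hσ1]
      simp only [Sum.inr.injEq, Matrix.fromBlocks_apply₁₂, Matrix.one_apply, w, Sum.elim_inl,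
        MonoidAlgebra.one_def]
    · rw [hσ2]
      simp only [Sum.inl.injEq, Matrix.fromBlocks_apply₂₁, U, Matrix.of_apply, w, Sum.elim_inr]
    · rw [hσ2, if_neg (by simp)]
      rfl
  have hM : fromBlocks A.val 0 0 1 * V.val = fromBlocks 0 A.val U 0 := by
    rw [hVb, Matrix.fromBlocks_multiply]
    simp
  refine ⟨V, mul_mem (dmU_mem w) (pmU_mem σ), ?_, ?_⟩
  · intro S h1 hS
    rw [hM]
    rintro (i | i) (j | j) h hne
    · exact absurd rfl hne
    · exact hS i j h hne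
    · change ((if π i = j then MonoidAlgebra.single (g i)⁻¹ (1 : R) else 0)).coeff h ≠ 0 at hne
      change ((if π i = j then MonoidAlgebra.single (g i)⁻¹ (1 : R) else 0)).coeff h ∈ S
      split_ifs at hne ⊢ with h2
      · rw [MonoidAlgebra.coeff_single, Finsupp.single_apply] at hne ⊢
        split_ifs at hne ⊢ with h3
        · exact h1
        · exact absurd rfl hne
      · exact absurd rfl hne
    · exact absurd rfl hne
  · rw [hM]
    set P := pat A.val with hP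
    let Q : Matrix (κ ⊕ κ) (κ ⊕ κ) (MonoidAlgebra ℤ G) := fromBlocks 0 P 0 0
      + adj (fromBlocks 0 P 0 0)
    have hQe : Q = fromBlocks 0 P (adj P) 0 := by
      ext i j h
      change ((fromBlocks 0 P 0 0 : Matrix (κ ⊕ κ) (κ ⊕ κ) (MonoidAlgebra ℤ G)) i j
        + adj (fromBlocks 0 P 0 0) i j).coeff h = _
      rw [MonoidAlgebra.coeff_add, Finsupp.add_apply, coeff_adj]
      rcases i with i | i <;> rcases j with j | j <;> simp [coeff_adj]
    have hN : NormLE Q c := by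
      refine TH6.CX.norm_sym _ ?_ c hc (normLE_corner P c hA)
      rw [Matrix.fromBlocks_multiply]
      simp
    have hsp := span_of_norm Q c hc hN
    refine ⟨cxM Q, ?_, ?_, ?_, spanK_of_int Q _ hsp⟩
    · intro i j h
      rw [cxM_coeff, cxM_coeff]
      have h1 : (Q j i).coeff h⁻¹ = (Q i j).coeff h := by
        change ((fromBlocks 0 P 0 0 : Matrix (κ ⊕ κ) (κ ⊕ κ) (MonoidAlgebra ℤ G)) j i
          + adj (fromBlocks 0 P 0 0) j i).coeff h⁻¹ =
          ((fromBlocks 0 P 0 0 : Matrix (κ ⊕ κ) (κ ⊕ κ) (MonoidAlgebra ℤ G)) i j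
          + adj (fromBlocks 0 P 0 0) i j).coeff h
        rw [MonoidAlgebra.coeff_add, Finsupp.add_apply, coeff_adj, MonoidAlgebra.coeff_add,
          Finsupp.add_apply, coeff_adj, inv_inv, add_comm]
      rw [h1]
      simp
    · intro i j h hne
      right
      rw [cxM_coeff] at hne ⊢
      have h1 : (Q i j).coeff h ≠ 0 := by exact_mod_cast hne
      have h2 : (1 : ℤ) ≤ |(Q i j).coeff h| := Int.one_le_abs h1
      rw [Complex.norm_intCast]
      exact_mod_cast h2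
    · intro i j h hne
      right
      rw [cxM_coeff, hQe]
      rcases i with i | i <;> rcases j with j | j
      · exact absurd rfl hne
      · have h1 := (pat_ne A.val i j h).2 hne
        exact_mod_cast h1
      · change (((if π i = j then MonoidAlgebra.single (g i)⁻¹ (1 : R) else 0)).coeff h ≠ 0) at hne
        split_ifs at hne with h2
        · rw [MonoidAlgebra.coeff_single, Finsupp.single_apply] at hne
          split_ifs at hne with h3
          · have h4 : (adj P i j).coeff h ≠ 0 := by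
              rw [coeff_adj, ← h3, inv_inv, ← h2]
              exact (pat_ne A.val (π i) i (g i)).2 (hg i)
            exact_mod_cast h4
          · exact absurd rfl hne
        · exact absurd rfl hne
      · exact absurd rfl hne

/-- **Every class of `K_1` has a representative of small span.** -/
theorem smallSpan_rep {S : Set R} (hS : LT.Gens S) {n : ℕ}
    (A : (Matrix (Fin n) (Fin n) (MonoidAlgebra R G))ˣ) (s : ℝ) (hs0 : 0 < s) (hs : 18 < s ^ 2) :
    ∃ (m : ℕ) (C : (Matrix (Fin n ⊕ Fin m) (Fin n ⊕ Fin m) (MonoidAlgebra R G))ˣ)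
      (V : (Matrix ((Fin n ⊕ Fin m) ⊕ (Fin n ⊕ Fin m)) ((Fin n ⊕ Fin m) ⊕ (Fin n ⊕ Fin m))
        (MonoidAlgebra R G))ˣ),
      C ∈ commutator (Matrix (Fin n ⊕ Fin m) (Fin n ⊕ Fin m) (MonoidAlgebra R G))ˣ ∧
      V ∈ VCGen R G ((Fin n ⊕ Fin m) ⊕ (Fin n ⊕ Fin m)) ∧
      LT.CS S (fromBlocks (fromBlocks A.val 0 0 1 * C.val) 0 0 1 * V.val) ∧
      SmallSpan (fromBlocks (fromBlocks A.val 0 0 1 * C.val) 0 0 1 * V.val) s := by
  obtain ⟨m, C, hC, h1, h2⟩ := CT.sthin_red_fin hS A (s / 2) (by rw [div_pow]; linarith)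
  let A1 : (Matrix (Fin n ⊕ Fin m) (Fin n ⊕ Fin m) (MonoidAlgebra R G))ˣ :=
    { val := fromBlocks A.val 0 0 1
      inv := fromBlocks (↑A⁻¹ : Matrix (Fin n) (Fin n) (MonoidAlgebra R G)) 0 0 1
      val_inv := by
        rw [Matrix.fromBlocks_multiply, ← Matrix.fromBlocks_one]
        simp
      inv_val := by
        rw [Matrix.fromBlocks_multiply, ← Matrix.fromBlocks_one]
        simp }
  obtain ⟨V, hV, h3, h4⟩ := smallSpan_double (A1 * C) (s / 2) (by positivity) h2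
  rw [mul_div_cancel₀ s two_ne_zero] at h4
  exact ⟨m, C, V, hC, hV, h3 S hS.one h1, h4⟩

end sharp

end Pool.Agent.U731.SG
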