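import Pool.Agent.U731.SP.AtiUp
import Pool.Agent.U731.SG.Sym
import Pool.Agent.N510.CT.Ati

set_option autoImplicit false
set_option linter.unusedSectionVars false
set_option linter.style.haveILetI false

/-! Kernel dimensions of hermitian matrices of small span over arbitrary groups. -/

namespace Pool.Agent.U731.SG

open Pool.Agent Pool.Agent.W656.VA Pool.Agent.H80R2
open TH57.Thr TH57.Thr.Ati Pool.Agent.Y477.AV Matrix TH6.PF TH6.LF Pool.Agent.N510
open Pool.Agent.U731.SP ComplexConjugate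

theorem herm_kerDim {G : Type} [Group G] {m n : ℕ}
    (N : Matrix (Fin m) (Fin n) (MonoidAlgebra ℤ G)) (s : ℝ) (hs0 : 0 < s) (hs : 18 < s ^ 2) :
    ∃ (k : ℕ) (Q : Matrix (Fin k) (Fin k) (MonoidAlgebra ℤ G)), HermZ Q ∧ SmallZ Q ∧
      SP.SpanLE (toReal Q) s ∧ W656.VA.kerDim (cx Q) = W656.VA.kerDim (cx N) := by
  obtain ⟨k, Q, h1, h2, h3, hk⟩ := herm_red N s hs0 hs
  refine ⟨k, Q, h1, h2, h3, ?_⟩
  rw [kerDim_cx, hk, kerDim_cx]

/-- **Every real number is a kernel dimension of a hermitian matrix of span close to `3 √2`.** -/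
theorem habove (s : ℝ) (hs0 : 0 < s) (hs : 18 < s ^ 2) (r : ℝ) (hr : 0 ≤ r) :
    ∃ (G : Type) (_ : Group G), Group.FG G ∧ Group.IsSolvable G ∧
      (∀ g : G, IsOfFinOrder g → g ^ 2 = 1) ∧
      ∃ (k : ℕ) (Q : Matrix (Fin k) (Fin k) (MonoidAlgebra ℤ G)), HermZ Q ∧ SmallZ Q ∧
        SP.SpanLE (toReal Q) s ∧ W656.VA.kerDim (cx Q) = r := by
  obtain ⟨G, iG, h1, h2, h3, m, n, N, -, h4⟩ := CT.sabove 3 (by norm_num) r hr
  obtain ⟨k, Q, h5, h6, h7, h8⟩ := herm_kerDim N s hs0 hs
  exact ⟨G, iG, h1, h2, h3, k, Q, h5, h6, h7, h8.trans h4⟩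

/-- **The conjecture is a statement about hermitian integer matrices of span close to `3 √2`.** -/
theorem hgap_iff (s : ℝ) (hs0 : 0 < s) (hs : 18 < s ^ 2) (C : (G : Type) → [Group G] → Prop)
    (hprod : ∀ (G H : Type) [Group G] [Group H], C G → C H → C (G × H))
    (hfree : ∀ (G : Type) [Group G] (m : ℕ), C G → C (Monoid.Coprod G (FreeGroup (Fin m)))) :
    (∀ (G : Type) [Group G], C G → ∀ d : ℕ, IsLcm G d →
      ∀ (m n : ℕ) (A : Matrix (Fin m) (Fin n) (G →₀ ℂ)),
        ∃ z : ℤ, (d : ℝ) * W656.VA.kerDim A = z) ↔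
    ∃ a b : ℝ, 0 ≤ a ∧ a < b ∧ ∀ (G : Type) [Group G], C G → ∀ d : ℕ, IsLcm G d →
      ∀ (k : ℕ) (Q : Matrix (Fin k) (Fin k) (MonoidAlgebra ℤ G)), HermZ Q → SmallZ Q →
        SP.SpanLE (toReal Q) s →
        ¬ (a < (d : ℝ) * W656.VA.kerDim (cx Q) ∧ (d : ℝ) * W656.VA.kerDim (cx Q) < b) := by
  constructor
  · intro h
    refine ⟨0, 1, le_rfl, one_pos, ?_⟩
    rintro G _ hG d hd k Q _ _ _ ⟨h1, h2⟩
    obtain ⟨z, hz⟩ := h G hG d hd k k (cx Q)
    rw [hz] at h1 h2
    have h3 : (0 : ℤ) < z := by exact_mod_cast h1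
    have h4 : z < (1 : ℤ) := by exact_mod_cast h2
    omega
  · rintro ⟨a, b, ha, hab, h⟩
    refine (CT.sgap_iff 3 (by norm_num) C hprod hfree).2 ⟨a, b, ha, hab, ?_⟩
    intro G _ hG d hd m n N _
    obtain ⟨k, Q, h5, h6, h7, h8⟩ := herm_kerDim N s hs0 hs
    rw [← h8]
    exact h G hG d hd k Q h5 h6 h7

section alg

variable {R : Type} [Field R] {G : Type} [Group G] {κ : Type} [Fintype κ] [DecidableEq κ]

/-- A matrix with a block structure over finite subgroups satisfies a monic polynomial. -/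
theorem algebraic_of_struct (B : Matrix κ κ (MonoidAlgebra R G)) (ρ : κ → κ) (u : κ → G)
    (C : κ → Subgroup G) (hC : ∀ a, Finite (C a))
    (hst : ∀ i j g, (B i j).coeff g ≠ 0 → ρ i = ρ j ∧ u i * g * (u j)⁻¹ ∈ C (ρ i)) :
    ∃ p : Polynomial R, p.Monic ∧ Polynomial.aeval B p = 0 := by
  classical
  -- the subspace of the supported matrices
  let P : κ → κ → G → Prop := fun i j g => ρ i = ρ j ∧ u i * g * (u j)⁻¹ ∈ C (ρ i)
  let S : Subalgebra R (Matrix κ κ (MonoidAlgebra R G)) :=
    { carrier := {M | ∀ i j g, (M i j).coeff g ≠ 0 → P i j g}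
      mul_mem' := by
        intro M N hM hN i j g hg
        rw [Matrix.mul_apply, MonoidAlgebra.coeff_sum, Finsupp.finsetSum_apply] at hg
        obtain ⟨k, -, hk⟩ := Finset.exists_ne_zero_of_sum_ne_zero hg
        rw [MonoidAlgebra.coeff_mul_apply_left] at hk
        obtain ⟨h, hh, hk2⟩ := Finset.exists_ne_zero_of_sum_ne_zero hk
        have h1 := hM i k h (Finsupp.mem_support_iff.1 hh)
        have h2 := hN k j (h⁻¹ * g) (right_ne_zero_of_mul hk2)
        refine ⟨h1.1.trans h2.1, ?_⟩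
        have h3 : u i * g * (u j)⁻¹ = (u i * h * (u k)⁻¹) * (u k * (h⁻¹ * g) * (u j)⁻¹) := by group
        rw [h3]
        refine mul_mem h1.2 ?_
        rw [h1.1]
        exact h2.2
      one_mem' := by
        intro i j g hg
        rw [Matrix.one_apply] at hg
        split_ifs at hg with h
        · subst h
          rw [MonoidAlgebra.one_def, MonoidAlgebra.coeff_single, Finsupp.single_apply] at hg
          split_ifs at hg with h2
          · subst h2
            refine ⟨rfl, ?_⟩
            rw [mul_one, mul_inv_cancel]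
            exact one_mem _
          · exact absurd rfl hg
        · exact absurd rfl hg
      add_mem' := by
        intro M N hM hN i j g hg
        rw [Matrix.add_apply, MonoidAlgebra.coeff_add, Finsupp.add_apply] at hg
        by_cases h : (M i j).coeff g = 0
        · refine hN i j g fun h2 => hg ?_
          rw [h, h2, add_zero]
        · exact hM i j g h
      zero_mem' := by
        intro i j g hg
        exact absurd rfl hg
      algebraMap_mem' := by
        intro r i j g hg
        rw [Matrix.algebraMap_matrix_apply] at hg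
        split_ifs at hg with h
        · subst h
          rw [MonoidAlgebra.coe_algebraMap, Function.comp_apply, MonoidAlgebra.coeff_single,
            Finsupp.single_apply] at hg
          split_ifs at hg with h2
          · subst h2
            refine ⟨rfl, ?_⟩
            rw [mul_one, mul_inv_cancel]
            exact one_mem _
          · exact absurd rfl hg
        · exact absurd rfl hg }
  have hfin : FiniteDimensional R S := by
    let T : κ → κ → Set G := fun i j => {g | P i j g}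
    have hT : ∀ i j, Finite (T i j) := by
      intro i j
      by_cases h : ρ i = ρ j
      · haveI := hC (ρ i)
        exact Finite.of_injective (fun g : T i j => (⟨u i * g.1 * (u j)⁻¹, g.2.2⟩ : C (ρ i)))
          (fun a b hab => by
            have := congrArg Subtype.val hab
            simp only [mul_left_inj, mul_right_inj] at this
            exact Subtype.ext this)
      · haveI : IsEmpty (T i j) := ⟨fun g => h g.2.1⟩
        infer_instance
    let f : S →ₗ[R] (∀ i j, T i j → R) :=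
      { toFun := fun M i j g => (M.1 i j).coeff g.1
        map_add' := by
          intro M N
          funext i j g
          rfl
        map_smul' := by
          intro r M
          funext i j g
          rfl }
    have hf : Function.Injective f := by
      intro M N h
      apply Subtype.ext
      ext i j g
      by_cases hg : P i j g
      · exact congrFun (congrFun (congrFun h i) j) ⟨g, hg⟩
      · have h1 : (M.1 i j).coeff g = 0 := by
          by_contra h2
          exact hg (M.2 i j g h2)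
        have h3 : (N.1 i j).coeff g = 0 := by
          by_contra h2
          exact hg (N.2 i j g h2)
        rw [h1, h3]
    haveI : ∀ i j, Finite (T i j) := hT
    exact FiniteDimensional.of_injective f hf
  obtain ⟨p, hp1, hp2⟩ := (Algebra.IsIntegral.isIntegral (R := R) (⟨B, hst⟩ : S))
  refine ⟨p, hp1, ?_⟩
  have h1 : Polynomial.aeval (⟨B, hst⟩ : S) p = 0 := by
    rw [Polynomial.aeval_def]
    exact hp2
  have h2 := congrArg S.val h1
  rw [map_zero, ← Polynomial.aeval_algHom_apply] at h2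
  exact h2

end alg

section main

variable {G : Type} [Group G] {n : ℕ}

/-- scaling a matrix -/
theorem smallSpan_of (A : Matrix (Fin n) (Fin n) (MonoidAlgebra ℂ G)) (δ s : ℝ) (hδ : 0 < δ)
    (hherm : ∀ i j g, (A j i).coeff g⁻¹ = conj ((A i j).coeff g))
    (hbig : ∀ i j g, (A i j).coeff g ≠ 0 → (i = j ∧ g = 1) ∨ δ ≤ ‖(A i j).coeff g‖)
    (hsp : SpanK A s) (B : Matrix (Fin n) (Fin n) (MonoidAlgebra ℂ G))
    (hB : ∀ i j g, (B i j).coeff g ≠ 0 → (i = j ∧ g = 1) ∨ (A i j).coeff g ≠ 0) :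
    SmallSpan B (s / δ) := by
  let A' : Matrix (Fin n) (Fin n) (MonoidAlgebra ℂ G) := fun i j => ((δ⁻¹ : ℝ) : ℂ) • A i j
  have hA' : ∀ i j g, (A' i j).coeff g = ((δ⁻¹ : ℝ) : ℂ) * (A i j).coeff g := fun i j g => rfl
  have hd0 : ((δ⁻¹ : ℝ) : ℂ) ≠ 0 := by
    rw [Ne, Complex.ofReal_eq_zero]
    exact inv_ne_zero hδ.ne'
  refine ⟨A', ?_, ?_, ?_, ?_⟩
  · intro i j g
    rw [hA', hA', hherm, map_mul, Complex.conj_ofReal]
  · intro i j g h
    rw [hA'] at h ⊢
    rcases hbig i j g (right_ne_zero_of_mul h) with h1 | h1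
    · exact Or.inl h1
    · right
      rw [norm_mul, Complex.norm_real, Real.norm_eq_abs, abs_of_pos (inv_pos.2 hδ)]
      calc 1 = δ⁻¹ * δ := by rw [inv_mul_cancel₀ hδ.ne']
        _ ≤ _ := mul_le_mul_of_nonneg_left h1 (inv_nonneg.2 hδ.le)
  · intro i j g h
    rcases hB i j g h with h1 | h1
    · exact Or.inl h1
    · right
      rw [hA']
      exact mul_ne_zero hd0 h1
  · obtain ⟨a, ha⟩ := hsp
    refine ⟨a / δ, fun S x => ?_⟩
    have h1 := ha S x
    have h2 : ∑ p ∈ S, ∑ q ∈ S, x p * (A' p.1 q.1).coeff (p.2⁻¹ * q.2) * conj (x q)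
        = ((δ⁻¹ : ℝ) : ℂ) * ∑ p ∈ S, ∑ q ∈ S,
          x p * (A p.1 q.1).coeff (p.2⁻¹ * q.2) * conj (x q) := by
      rw [Finset.mul_sum]
      refine Finset.sum_congr rfl fun p _ => ?_
      rw [Finset.mul_sum]
      refine Finset.sum_congr rfl fun q _ => ?_
      rw [hA']
      ring
    rw [h2, Complex.re_ofReal_mul]
    have h4 : a / δ * ∑ p ∈ S, ‖x p‖ ^ 2 = δ⁻¹ * (a * ∑ p ∈ S, ‖x p‖ ^ 2) := by
      field_simp
    have h5 : (a / δ + s / δ) * ∑ p ∈ S, ‖x p‖ ^ 2 = δ⁻¹ * ((a + s) * ∑ p ∈ S, ‖x p‖ ^ 2) := by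
      field_simp
    rw [h4, h5]
    exact ⟨mul_le_mul_of_nonneg_left h1.1 (inv_nonneg.2 hδ.le),
      mul_le_mul_of_nonneg_left h1.2 (inv_nonneg.2 hδ.le)⟩

end main

end Pool.Agent.U731.SG
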