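import Pool.Agent.U731.SG.Proj
import Pool.Agent.N510.CT.Bass
import Pool.Agent.N510.CT.Mod

set_option autoImplicit false
set_option linter.unusedSectionVars false
set_option linter.style.haveILetI false

/-! The Bass trace conjecture for modules presented by matrices supported in a hermitian matrix of
small span. -/

namespace Pool.Agent.U731.SG

open Matrix TH57.Thr TH6.LF TH6.PF Pool.Agent.N510 Pool.Agent.U731.SP
open Pool.Agent.H23R2.Cyc (ell ell_single ell_mul_comm ell_eq_sum tf tf_apply)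
open Pool.Agent.H26R2.Bass (tf_zero_of_prime tf_zero_of_finite almostDiv_of_tf ell_class tau
  tau_eq ind_comm)

section bass

variable {R : Type} [CommRing R] [IsDomain R] {G : Type} [Group G]

theorem bass_struct {n : ℕ} (M : Matrix (Fin n) (Fin n) (MonoidAlgebra R G))
    (ρ : Fin n → Fin n) (u : Fin n → G) (C : Fin n → Subgroup G) (hC : ∀ a, IsVC (C a))
    (hst : ∀ i j g, (M i j).coeff g ≠ 0 → ρ i = ρ j ∧ u i * g * (u j)⁻¹ ∈ C (ρ i))
    (X : Matrix (Fin n) (Fin n) (MonoidAlgebra R G)) (hX : M * X * M = M)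
    (g : G) (hg : ¬ IsUnit ((orderOf g : ℕ) : R)) : tau (1 - X * M) g = 0 := by
  classical
  have hidem : (1 - X * M) * (1 - X * M) = 1 - X * M := by
    have h2 : X * M * (X * M) = X * M := by rw [Matrix.mul_assoc, ← Matrix.mul_assoc M, hX]
    rw [Matrix.mul_sub, Matrix.sub_mul, Matrix.sub_mul, h2, Matrix.mul_one, Matrix.one_mul,
      sub_self, sub_zero, Matrix.mul_one]
  rw [tau_eq]
  by_cases hfin : orderOf g = 0
  · rw [map_sub]
    have h1 : tf (Pool.Agent.H26R2.Bass.ind R g) (X * M) = 0 :=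
      bass_pattern M ρ ρ C u u hst hC X hX g hfin
    have h2 : tf (Pool.Agent.H26R2.Bass.ind R g)
        (1 : Matrix (Fin n) (Fin n) (MonoidAlgebra R G)) = 0 := by
      rw [tf_apply]
      refine Finset.sum_eq_zero fun i _ => ?_
      rw [Matrix.one_apply_eq, MonoidAlgebra.one_def, ell_single, one_mul]
      unfold Pool.Agent.H26R2.Bass.ind
      rw [if_neg]
      intro h3
      have h4 : g = 1 := isConj_one_right.1 h3
      rw [h4, orderOf_one] at hfin
      exact one_ne_zero hfin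
    rw [h1, h2, sub_zero]
  · exact tf_zero_of_finite _ hidem g hfin hg

theorem bass_struct_module {k n : ℕ}
    (A : Matrix (Fin k) (Fin k) (MonoidAlgebra R G)) (hA : A * A = A)
    (M : Matrix (Fin n) (Fin n) (MonoidAlgebra R G))
    (ρ : Fin n → Fin n) (u : Fin n → G) (C : Fin n → Subgroup G) (hC : ∀ a, IsVC (C a))
    (hst : ∀ i j g, (M i j).coeff g ≠ 0 → ρ i = ρ j ∧ u i * g * (u j)⁻¹ ∈ C (ρ i))
    (φ : LinearMap.range A.vecMulLinear ≃ₗ[MonoidAlgebra R G] Coker M)
    (g : G) (hg : ¬ IsUnit ((orderOf g : ℕ) : R)) : tau A g = 0 := by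
  have hP : Module.Projective (MonoidAlgebra R G) (LinearMap.range A.vecMulLinear) := by
    refine Module.Projective.of_split (LinearMap.range A.vecMulLinear).subtype
      A.vecMulLinear.rangeRestrict ?_
    refine LinearMap.ext fun z => ?_
    obtain ⟨_, ⟨x, rfl⟩⟩ := z
    apply Subtype.ext
    change (x ᵥ* A) ᵥ* A = x ᵥ* A
    rw [Matrix.vecMul_vecMul, hA]
  obtain ⟨X, hX⟩ := regular_of_projective M _ hP φ
  obtain ⟨U, V, h1, h2⟩ := idem_iso A hA M X hX φ
  have h3 := bass_struct M ρ u C hC hst X hX g hg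
  rw [tau_eq] at h3 ⊢
  rw [← h1, tf_mul_rect _ (ind_comm g), h2, h3]

/-- the matrix itself -/
theorem bass_struct_idem {n : ℕ} (A : Matrix (Fin n) (Fin n) (MonoidAlgebra R G))
    (hA : A * A = A) (ρ : Fin n → Fin n) (u : Fin n → G) (C : Fin n → Subgroup G)
    (hC : ∀ a, IsVC (C a))
    (hst : ∀ i j g, (A i j).coeff g ≠ 0 → ρ i = ρ j ∧ u i * g * (u j)⁻¹ ∈ C (ρ i))
    (g : G) (hg : ¬ IsUnit ((orderOf g : ℕ) : R)) : tau A g = 0 := by
  classical
  rw [tau_eq]
  by_cases hfin : orderOf g = 0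
  · have h1 : tf (Pool.Agent.H26R2.Bass.ind R g) (1 * A) = 0 :=
      bass_pattern A ρ ρ C u u hst hC 1 (by rw [mul_one, hA]) g hfin
    rwa [one_mul] at h1
  · exact tf_zero_of_finite _ hA g hfin hg

end bass

section sharp

variable {R : Type} [Ring R] {G : Type} [Group G]

/-- the cokernel of a corner matrix -/
theorem coker_corner {S : Type} [Ring S] {m n : Type} [Fintype m] [Fintype n] [DecidableEq m]
    [DecidableEq n] (M : Matrix m n S) :
    Nonempty ((((m ⊕ n) → S) ⧸ LinearMap.range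
      (fromBlocks 0 M 0 0 : Matrix (m ⊕ n) (m ⊕ n) S).vecMulLinear) ≃ₗ[S]
      ((m → S) × ((n → S) ⧸ LinearMap.range M.vecMulLinear))) := by
  let f : ((m ⊕ n) → S) →ₗ[S] ((m → S) × ((n → S) ⧸ LinearMap.range M.vecMulLinear)) :=
    LinearMap.prod (LinearMap.funLeft S S Sum.inl)
      ((LinearMap.range M.vecMulLinear).mkQ.comp (LinearMap.funLeft S S Sum.inr))
  have hf : Function.Surjective f := by
    rintro ⟨a, b⟩
    obtain ⟨b, rfl⟩ := Submodule.mkQ_surjective _ b
    exact ⟨Sum.elim a b, rfl⟩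
  have hk : LinearMap.ker f = LinearMap.range
      (fromBlocks 0 M 0 0 : Matrix (m ⊕ n) (m ⊕ n) S).vecMulLinear := by
    ext x
    rw [LinearMap.mem_ker, LinearMap.mem_range]
    constructor
    · intro h
      have h1 : x ∘ Sum.inl = 0 := congrArg Prod.fst h
      have h2 : (LinearMap.range M.vecMulLinear).mkQ (x ∘ Sum.inr) = 0 := congrArg Prod.snd h
      rw [Submodule.mkQ_apply, Submodule.Quotient.mk_eq_zero] at h2
      obtain ⟨y, hy⟩ := h2
      refine ⟨Sum.elim y 0, ?_⟩
      rw [Matrix.vecMulLinear_apply, Matrix.vecMul_fromBlocks]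
      have h3 : (Sum.elim y (0 : n → S)) ∘ Sum.inl = y := rfl
      have h4 : (Sum.elim y (0 : n → S)) ∘ Sum.inr = 0 := rfl
      rw [h3, h4, Matrix.vecMul_zero, Matrix.zero_vecMul, Matrix.vecMul_zero, zero_add, add_zero]
      funext i
      rcases i with i | i
      · exact (congrFun h1 i).symm
      · exact congrFun hy i
    · rintro ⟨y, rfl⟩
      rw [Matrix.vecMulLinear_apply, Matrix.vecMul_fromBlocks]
      apply Prod.ext
      · funext i
        change (y ∘ Sum.inl ᵥ* (0 : Matrix m m S) + y ∘ Sum.inr ᵥ* (0 : Matrix n m S)) i = 0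
        rw [Matrix.vecMul_zero, Matrix.vecMul_zero, add_zero]
        rfl
      · change (LinearMap.range M.vecMulLinear).mkQ
          (y ∘ Sum.inl ᵥ* M + y ∘ Sum.inr ᵥ* (0 : Matrix n n S)) = 0
        rw [Matrix.vecMul_zero, add_zero, Submodule.mkQ_apply, Submodule.Quotient.mk_eq_zero]
        exact ⟨_, rfl⟩
  exact ⟨(Submodule.quotEquivOfEq _ _ hk.symm).trans (f.quotKerEquivOfSurjective hf)⟩

theorem smallSpan_corner {m n : ℕ} (M : Matrix (Fin m) (Fin n) (MonoidAlgebra R G)) (c : ℝ)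
    (hc : 0 < c) (hM : ThinLE M c) :
    SmallSpan (fromBlocks 0 M 0 0 : Matrix (Fin m ⊕ Fin n) (Fin m ⊕ Fin n) (MonoidAlgebra R G))
      (2 * c) := by
  set P := pat M with hP
  let D : Matrix (Fin m ⊕ Fin n) (Fin m ⊕ Fin n) (MonoidAlgebra ℤ G) := fromBlocks 0 P 0 0
  have hD : NormLE D c := by
    intro x
    have h1 : toReal D = fromBlocks 0 (toReal P) 0 0 := by
      ext i j g
      rcases i with i | i <;> rcases j with j | j <;> simp [toReal, D]
    rw [h1]
    have h2 : x ᵥ* (fromBlocks 0 (toReal P) 0 0 :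
          Matrix (Fin m ⊕ Fin n) (Fin m ⊕ Fin n) (MonoidAlgebra ℝ G))
        = Sum.elim (0 : Fin m → MonoidAlgebra ℝ G) ((x ∘ Sum.inl) ᵥ* toReal P) := by
      rw [Matrix.vecMul_fromBlocks]
      simp
    rw [h2]
    have h3 := hM (x ∘ Sum.inl)
    have h4 : normSq (Sum.elim (0 : Fin m → MonoidAlgebra ℝ G) ((x ∘ Sum.inl) ᵥ* toReal P))
        = normSq ((x ∘ Sum.inl) ᵥ* toReal P) := by
      unfold normSq
      rw [Fintype.sum_sum_type]
      simp
    have h5 : normSq (x ∘ Sum.inl) ≤ normSq x := by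
      unfold normSq
      rw [Fintype.sum_sum_type]
      have : 0 ≤ ∑ i : Fin n, ∑ g ∈ (x (Sum.inr i)).coeff.support,
          (x (Sum.inr i)).coeff g ^ 2 :=
        Finset.sum_nonneg fun i _ => Finset.sum_nonneg fun g _ => sq_nonneg _
      simp only [Function.comp_apply]
      linarith
    rw [h4]
    exact h3.trans (mul_le_mul_of_nonneg_left h5 (sq_nonneg c))
  have hco : ∀ i j h, ((D + adj D) i j).coeff h = (D i j).coeff h + (D j i).coeff h⁻¹ := by
    intro i j h
    rw [Matrix.add_apply, MonoidAlgebra.coeff_add, Finsupp.add_apply, coeff_adj]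
  have hN : NormLE (D + adj D) c := by
    refine TH6.CX.norm_sym _ ?_ c hc hD
    simp only [D]
    rw [Matrix.fromBlocks_multiply]
    simp
  have hsp := span_of_norm (D + adj D) c hc hN
  refine ⟨cxM (D + adj D), ?_, ?_, ?_, spanK_of_int (D + adj D) _ hsp⟩
  · intro i j h
    rw [cxM_coeff, cxM_coeff, hco, hco, inv_inv, add_comm]
    simp
  · intro i j h hne
    right
    rw [cxM_coeff] at hne ⊢
    have h1 : ((D + adj D) i j).coeff h ≠ 0 := by exact_mod_cast hne
    have h2 : (1 : ℤ) ≤ |((D + adj D) i j).coeff h| := Int.one_le_abs h1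
    rw [Complex.norm_intCast]
    exact_mod_cast h2
  · intro i j h hne
    right
    rw [cxM_coeff, hco]
    rcases i with i | i <;> rcases j with j | j
    · exact absurd rfl hne
    · have h1 : (D (Sum.inl i) (Sum.inr j)).coeff h ≠ 0 := (pat_ne M i j h).2 hne
      have h2 : (D (Sum.inr j) (Sum.inl i)).coeff h⁻¹ = 0 := rfl
      rw [h2, add_zero]
      exact_mod_cast h1
    · exact absurd rfl hne
    · exact absurd rfl hne

/-- transport of the span along a bijection -/
theorem smallSpan_re {κ μ : Type} [Fintype κ] [DecidableEq κ] [Fintype μ] [DecidableEq μ]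
    (e : μ ≃ κ) (A : Matrix κ κ (MonoidAlgebra R G)) (s : ℝ) (h : SmallSpan A s) :
    SmallSpan (A.submatrix e e) s := by
  obtain ⟨S, h1, h2, h3, a, ha⟩ := h
  refine ⟨S.submatrix e e, fun i j g => h1 _ _ g, fun i j g hg => ?_, fun i j g hg => ?_, a,
    fun T x => ?_⟩
  · rcases h2 (e i) (e j) g hg with ⟨h4, h5⟩ | h4
    · exact Or.inl ⟨e.injective h4, h5⟩
    · exact Or.inr h4
  · rcases h3 (e i) (e j) g hg with ⟨h4, h5⟩ | h4
    · exact Or.inl ⟨e.injective h4, h5⟩
    · exact Or.inr h4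
  · let E : (μ × G) ≃ (κ × G) := Equiv.prodCongr e (Equiv.refl G)
    have h5 := ha (T.map E.toEmbedding) (fun p => x (E.symm p))
    simp only [Finset.sum_map, Equiv.coe_toEmbedding, Equiv.symm_apply_apply] at h5
    exact h5

/-- **Every finitely presented module plus a free module is presented by a square matrix of small
support span.** -/
theorem sym_pres [Nontrivial R] {S : Set R} (hS : LT.Gens S) (P : Type) [AddCommGroup P]
    [Module (MonoidAlgebra R G) P] (hP : Module.FinitePresentation (MonoidAlgebra R G) P)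
    (s : ℝ) (hs0 : 0 < s) (hs : 18 < s ^ 2) :
    ∃ (k n : ℕ) (M : Matrix (Fin n) (Fin n) (MonoidAlgebra R G)), LT.CS S M ∧ SmallSpan M s ∧
      Nonempty (((Fin k → MonoidAlgebra R G) × P) ≃ₗ[MonoidAlgebra R G] Coker M) := by
  obtain ⟨m, n, M, h1, h2, ⟨e⟩⟩ := CT.sthin_pres hS P hP (s / 2) (by rw [div_pow]; linarith)
  let M1 : Matrix (Fin m ⊕ Fin n) (Fin m ⊕ Fin n) (MonoidAlgebra R G) := fromBlocks 0 M 0 0
  let M2 : Matrix (Fin (m + n)) (Fin (m + n)) (MonoidAlgebra R G) :=
    M1.submatrix finSumFinEquiv.symm finSumFinEquiv.symm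
  have h3 := smallSpan_corner M (s / 2) (by positivity) h2
  rw [mul_div_cancel₀ s two_ne_zero] at h3
  refine ⟨m, m + n, M2, ?_, smallSpan_re _ _ _ h3, ?_⟩
  · intro i j g hg
    change (M1 (finSumFinEquiv.symm i) (finSumFinEquiv.symm j)).coeff g ∈ S
    change (M1 (finSumFinEquiv.symm i) (finSumFinEquiv.symm j)).coeff g ≠ 0 at hg
    generalize finSumFinEquiv.symm i = i' at hg ⊢
    generalize finSumFinEquiv.symm j = j' at hg ⊢
    rcases i' with i' | i' <;> rcases j' with j' | j'
    · exact absurd rfl hg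
    · exact h1 i' j' g hg
    · exact absurd rfl hg
    · exact absurd rfl hg
  · obtain ⟨f⟩ := coker_corner M
    obtain ⟨f2⟩ := coker_reindex M1 finSumFinEquiv.symm finSumFinEquiv.symm
    exact ⟨((LinearEquiv.prodCongr (LinearEquiv.refl _ _) e).trans f.symm).trans f2⟩

end sharp

end Pool.Agent.U731.SG
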