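import Pool.Agent.U731.SG.Sym
import Pool.Agent.N510.CT.FF
import Pool.Agent.TH6.CX.Base

set_option autoImplicit false
set_option linter.unusedSectionVars false
set_option linter.style.haveILetI false

/-! Boundary matrices of free resolutions supported in parts of hermitian matrices. -/

namespace Pool.Agent.U731.SG

open ComplexConjugate Matrix TH57.Thr TH57.FF

section res

variable {Γ : Type} [Group Γ] (htf : ∀ g : Γ, ∀ k : ℕ, 0 < k → g ^ k = 1 → g = 1)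

/-- conjugation of a matrix with a block structure -/
theorem conj_pat {ι κ β : Type} [Fintype κ] [DecidableEq κ] [Fintype ι] [DecidableEq ι]
    (A : Matrix ι κ (MonoidAlgebra ℤ Γ)) (r : ι → β) (s : κ → β) (u : ι → Γ) (v : κ → Γ)
    (C : β → Subgroup Γ)
    (hst : ∀ i j g, (A i j).coeff g ≠ 0 → r i = s j ∧ u i * g * (v j)⁻¹ ∈ C (r i)) :
    ∃ B : Matrix ι κ (MonoidAlgebra ℤ Γ),
      (∀ i j g, (B i j).coeff g ≠ 0 → r i = s j ∧ g ∈ C (r i)) ∧
      A = (dgu u)⁻¹.val * B * (dgu v).val := by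
  set P := dgu u with hP
  set Q := dgu v with hQ
  set B : Matrix ι κ (MonoidAlgebra ℤ Γ) := P.val * A * Q⁻¹.val with hBdef
  have hB : ∀ i j, B i j = MonoidAlgebra.single (u i) 1 * A i j
        * MonoidAlgebra.single (v j)⁻¹ 1 := by
    intro i j
    change (Matrix.diagonal (fun i => MonoidAlgebra.single (u i) (1 : ℤ))
      * A * Matrix.diagonal (fun j => MonoidAlgebra.single (v j)⁻¹ (1 : ℤ)) :
        Matrix ι κ (MonoidAlgebra ℤ Γ)) i j = _
    rw [Matrix.mul_diagonal, Matrix.diagonal_mul]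
  refine ⟨B, fun i j g hg => ?_, ?_⟩
  · rw [hB, MonoidAlgebra.coeff_mul_single_apply, MonoidAlgebra.coeff_single_mul_apply, one_mul,
      mul_one, inv_inv] at hg
    have h1 := hst i j _ hg
    refine ⟨h1.1, ?_⟩
    have h2 := h1.2
    have h3 : u i * ((u i)⁻¹ * (g * v j)) * (v j)⁻¹ = g := by group
    rwa [h3] at h2
  · have hPP : P⁻¹.val * P.val = 1 := P.inv_mul
    have hQQ : Q⁻¹.val * Q.val = 1 := Q.inv_mul
    calc A = (P⁻¹.val * P.val) * A * (Q⁻¹.val * Q.val) := by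
          rw [hPP, hQQ, Matrix.mul_one, Matrix.one_mul]
      _ = P⁻¹.val * B * Q.val := by
          rw [hBdef]; simp only [Matrix.mul_assoc]

include htf in
theorem Res_of_pat {ι κ β : Type} [Fintype κ] [DecidableEq κ] [Fintype ι] [DecidableEq ι]
    (A : Matrix ι κ (MonoidAlgebra ℤ Γ)) (r : ι → β) (s : κ → β) (u : ι → Γ) (v : κ → Γ)
    (C : β → Subgroup Γ) (hC : ∀ b, IsCyclic (C b))
    (hst : ∀ i j g, (A i j).coeff g ≠ 0 → r i = s j ∧ u i * g * (v j)⁻¹ ∈ C (r i)) :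
    Res 2 A := by
  obtain ⟨B, hBc, hAB⟩ := conj_pat A r s u v C hst
  have h1 : Res 2 B := Res_pattern htf _ ι κ le_rfl _ r s C hC B hBc
  have h2 : Res 2 ((dgu u)⁻¹.val * B) :=
    Res_left 2 B (dgu u)⁻¹.val (dgu u).val (dgu u).inv_mul (dgu u).mul_inv h1
  rw [hAB]
  exact Res_right 2 _ (dgu v).val (dgu v)⁻¹.val (dgu v).mul_inv h2

/-- a matrix over `ℤ` has a free image -/
theorem int_image {ι κ : Type} [Fintype ι] [Fintype κ] (θ : Matrix ι κ ℤ) :
    ∃ (n : ℕ) (Y : Matrix (Fin n) κ ℤ) (X : Matrix ι (Fin n) ℤ) (W : Matrix (Fin n) ι ℤ),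
      θ = X * Y ∧ Y = W * θ ∧ Res 0 Y := by
  classical
  obtain ⟨n, b⟩ := Submodule.basisOfPid (Pi.basisFun ℤ κ) (LinearMap.range θ.vecMulLinear)
  let Y : Matrix (Fin n) κ ℤ := fun i => (b i : κ → ℤ)
  have hY : ∀ y : Fin n → ℤ, y ᵥ* Y =
      ((∑ i, y i • b i : LinearMap.range θ.vecMulLinear) : κ → ℤ) := by
    intro y
    rw [AddSubmonoidClass.coe_finsetSum, Matrix.vecMul_eq_sum]
    rfl
  have hrow : ∀ i, θ i ∈ LinearMap.range θ.vecMulLinear := fun i =>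
    ⟨Pi.single i 1, by
      change Pi.single i 1 ᵥ* θ = _
      rw [Matrix.single_one_vecMul]; rfl⟩
  have hW : ∀ k : Fin n, ∃ w : ι → ℤ, w ᵥ* θ = Y k := fun k => (b k).2
  choose W hW using hW
  refine ⟨n, Y, fun i k => b.repr ⟨θ i, hrow i⟩ k, W, ?_, ?_, ?_⟩
  · ext i j
    have h1 : (fun k => b.repr ⟨θ i, hrow i⟩ k) ᵥ* Y = θ i := by
      rw [hY, b.sum_repr]
    exact (congrFun h1 j).symm
  · ext k j
    exact (congrFun (hW k) j).symm
  · intro y hy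
    rw [hY] at hy
    have h1 : (∑ i, y i • b i) = 0 := Subtype.ext hy
    have h2 := congrArg b.repr h1
    funext j
    have h3 := DFunLike.congr_fun h2 j
    rw [map_sum, Finsupp.finsetSum_apply] at h3
    simp only [map_smul, Finsupp.smul_apply, Module.Basis.repr_self, Finsupp.single_apply,
      smul_eq_mul, mul_ite, mul_one, mul_zero, map_zero] at h3
    rw [Finset.sum_ite_eq' Finset.univ j, if_pos (Finset.mem_univ _)] at h3
    exact h3

/-- the image of a matrix with coefficients at the identity is free -/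
theorem free_image_trivial {ι κ : Type} [Fintype ι] [Fintype κ]
    (M : Matrix ι κ (MonoidAlgebra ℤ Γ))
    (hM : ∀ i j g, (M i j).coeff g ≠ 0 → g = 1) : FR (MonoidAlgebra ℤ Γ) 0 (Im M) := by
  classical
  let au : MonoidAlgebra ℤ Γ →+* ℤ := (MonoidAlgebra.lift ℤ ℤ Γ 1).toRingHom
  have hau : ∀ z : ℤ, au (MonoidAlgebra.single 1 z) = z := fun z => by simp [au]
  have hMM : (M.map au).map (Int.castRingHom (MonoidAlgebra ℤ Γ)) = M := by
    ext1 i j
    change ((au (M i j) : ℤ) : MonoidAlgebra ℤ Γ) = M i j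
    have h2 : M i j = MonoidAlgebra.single 1 ((M i j).coeff 1) := by
      ext g
      rw [MonoidAlgebra.coeff_single]
      by_cases hg : g = 1
      · subst hg; simp
      · rw [Finsupp.single_eq_of_ne hg]
        by_contra h
        exact hg (hM i j g h)
    rw [h2, hau, int_single]
  obtain ⟨n, Y, X, W, h1, h2, h3⟩ := int_image (M.map au)
  set Y' : Matrix (Fin n) κ (MonoidAlgebra ℤ Γ) := Y.map (Int.castRingHom (MonoidAlgebra ℤ Γ))
  set X' : Matrix ι (Fin n) (MonoidAlgebra ℤ Γ) := X.map (Int.castRingHom (MonoidAlgebra ℤ Γ))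
  set W' : Matrix (Fin n) ι (MonoidAlgebra ℤ Γ) := W.map (Int.castRingHom (MonoidAlgebra ℤ Γ))
  have h4 : M = X' * Y' := by
    rw [← hMM, h1, Matrix.map_mul]
  have h5 : Y' = W' * M := by
    have h6 : Y' = (W * M.map au).map (Int.castRingHom (MonoidAlgebra ℤ Γ)) := by rw [← h2]
    rw [h6, Matrix.map_mul, hMM]
  have h6 : Im M = Im Y' := by
    apply le_antisymm
    · rintro _ ⟨x, rfl⟩
      refine ⟨x ᵥ* X', ?_⟩
      change (x ᵥ* X') ᵥ* Y' = x ᵥ* M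
      rw [Matrix.vecMul_vecMul, ← h4]
    · rintro _ ⟨x, rfl⟩
      refine ⟨x ᵥ* W', ?_⟩
      change (x ᵥ* W') ᵥ* M = x ᵥ* Y'
      rw [Matrix.vecMul_vecMul, ← h5]
  rw [h6]
  exact FR_of_Res 0 Y' (Res_map _ _ _ RB_int 0 Y h3)

/-- the images of `A` and of `P A Q`, `P`, `Q` invertible -/
theorem FR_conj {ι κ : Type} [Fintype ι] [Fintype κ] [DecidableEq ι] [DecidableEq κ] (n : ℕ)
    (B : Matrix ι κ (MonoidAlgebra ℤ Γ))
    (P : (Matrix ι ι (MonoidAlgebra ℤ Γ))ˣ) (Q : (Matrix κ κ (MonoidAlgebra ℤ Γ))ˣ)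
    (h : FR (MonoidAlgebra ℤ Γ) n (Im B)) : FR (MonoidAlgebra ℤ Γ) n (Im (P.val * B * Q.val)) := by
  let e : (κ → MonoidAlgebra ℤ Γ) ≃ₗ[MonoidAlgebra ℤ Γ] (κ → MonoidAlgebra ℤ Γ) :=
    { toLinearMap := Q.val.vecMulLinear
      invFun := Q⁻¹.val.vecMulLinear
      left_inv := fun x => by
        change (x ᵥ* Q.val) ᵥ* Q⁻¹.val = x
        rw [Matrix.vecMul_vecMul, Q.mul_inv, Matrix.vecMul_one]
      right_inv := fun x => by
        change (x ᵥ* Q⁻¹.val) ᵥ* Q.val = x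
        rw [Matrix.vecMul_vecMul, Q.inv_mul, Matrix.vecMul_one] }
  have h1 : Im (P.val * B * Q.val) = (Im B).map (e : (κ → MonoidAlgebra ℤ Γ) →ₗ[MonoidAlgebra ℤ Γ] _) := by
    ext y
    constructor
    · rintro ⟨x, rfl⟩
      refine ⟨(x ᵥ* P.val) ᵥ* B, ⟨x ᵥ* P.val, rfl⟩, ?_⟩
      change ((x ᵥ* P.val) ᵥ* B) ᵥ* Q.val = x ᵥ* (P.val * B * Q.val)
      rw [Matrix.vecMul_vecMul, Matrix.vecMul_vecMul, Matrix.mul_assoc]
    · rintro ⟨_, ⟨x, rfl⟩, rfl⟩
      refine ⟨x ᵥ* P⁻¹.val, ?_⟩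
      change (x ᵥ* P⁻¹.val) ᵥ* (P.val * B * Q.val) = (x ᵥ* B) ᵥ* Q.val
      rw [Matrix.vecMul_vecMul, Matrix.mul_assoc, ← Matrix.mul_assoc P⁻¹.val, P.inv_mul,
        Matrix.one_mul, Matrix.vecMul_vecMul]
  rw [h1]
  exact FR_equiv n (e.submoduleMap (Im B)) h

include htf in
theorem free_of_pat {ι κ β : Type} [Fintype κ] [DecidableEq κ] [Fintype ι] [DecidableEq ι]
    (A : Matrix ι κ (MonoidAlgebra ℤ Γ)) (r : ι → β) (s : κ → β) (u : ι → Γ) (v : κ → Γ)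
    (C : β → Subgroup Γ) (hC : ∀ b, Finite (C b))
    (hst : ∀ i j g, (A i j).coeff g ≠ 0 → r i = s j ∧ u i * g * (v j)⁻¹ ∈ C (r i)) :
    FR (MonoidAlgebra ℤ Γ) 0 (Im A) := by
  obtain ⟨B, hBc, hAB⟩ := conj_pat A r s u v C hst
  rw [hAB]
  refine FR_conj 0 B (dgu u)⁻¹ (dgu v) (free_image_trivial B fun i j g hg => ?_)
  have h1 := (hBc i j g hg).2
  haveI := hC (r i)
  have h2 : IsOfFinOrder (⟨g, h1⟩ : C (r i)) := isOfFinOrder_of_finite _
  obtain ⟨k, hk, h3⟩ := isOfFinOrder_iff_pow_eq_one.1 h2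
  exact htf g k hk (by simpa using congrArg Subtype.val h3)

end res

section rect

variable {G : Type} [Group G]

theorem normLE_corner' {ι κ : Type} [Fintype ι] [Fintype κ] [DecidableEq ι] [DecidableEq κ]
    (P : Matrix ι κ (MonoidAlgebra ℤ G)) (c : ℝ) (h : NormLE P c) :
    NormLE (fromBlocks 0 P 0 0 : Matrix (ι ⊕ κ) (ι ⊕ κ) (MonoidAlgebra ℤ G)) c := by
  intro x
  have h1 : toReal (fromBlocks 0 P 0 0 : Matrix (ι ⊕ κ) (ι ⊕ κ) (MonoidAlgebra ℤ G))
      = fromBlocks 0 (toReal P) 0 0 := by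
    ext i j g
    rcases i with i | i <;> rcases j with j | j <;> simp [toReal]
  rw [h1]
  have h2 : x ᵥ* (fromBlocks 0 (toReal P) 0 0 : Matrix (ι ⊕ κ) (ι ⊕ κ) (MonoidAlgebra ℝ G))
      = Sum.elim (0 : ι → MonoidAlgebra ℝ G) ((x ∘ Sum.inl) ᵥ* toReal P) := by
    rw [Matrix.vecMul_fromBlocks]
    simp
  rw [h2]
  have h3 := h (x ∘ Sum.inl)
  have h4 : normSq (Sum.elim (0 : ι → MonoidAlgebra ℝ G) ((x ∘ Sum.inl) ᵥ* toReal P))
      = normSq ((x ∘ Sum.inl) ᵥ* toReal P) := by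
    unfold normSq
    rw [Fintype.sum_sum_type]
    simp
  have h5 : normSq (x ∘ Sum.inl) ≤ normSq x := by
    unfold normSq
    rw [Fintype.sum_sum_type]
    have : 0 ≤ ∑ i : κ, ∑ g ∈ (x (Sum.inr i)).coeff.support, (x (Sum.inr i)).coeff g ^ 2 :=
      Finset.sum_nonneg fun i _ => Finset.sum_nonneg fun g _ => sq_nonneg _
    simp only [Function.comp_apply]
    linarith
  rw [h4]
  exact h3.trans (mul_le_mul_of_nonneg_left h5 (sq_nonneg c))

end rect

end Pool.Agent.U731.SG
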