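import Pool.Agent.U731.SG.Sym
import Pool.Agent.TH6.FB.Cx

set_option autoImplicit false
set_option linter.unusedSectionVars false
set_option linter.unusedVariables false
set_option linter.style.haveILetI false

/-! Matrices and complexes over a group ring `RE` which are controlled over a quotient `G` of `E` by a
hermitian complex matrix of small spectral span. -/

namespace TH6.FB.U731

open Matrix TH57.Thr TH6.LF TH6.PF TH6.CX TH6.CR TH6.FB

section

variable {R : Type} [Ring R] {E G : Type} [Group E] [Group G] (φ : E →* G)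
  {ι : Type} [Fintype ι] [DecidableEq ι]

/-- torsion of a complex whose boundary operator has a block structure -/
theorem F_struct (deg : ι → ℤ) (d s : Matrix ι ι (MonoidAlgebra R E)) (hd : IsBd deg d)
    (hs : IsCt deg d s) (ρ : ι → ι) (u : ι → E) (C : ι → Subgroup E)
    (hC : ∀ b, VCImage φ (C b)) (hpat : InBlocks ρ C (cu (dmU R u) d))
    (e : Ob deg ≃ Eb deg) (x : (Matrix (Ob deg) (Ob deg) (MonoidAlgebra R E))ˣ)
    (hx : (x : Matrix (Ob deg) (Ob deg) (MonoidAlgebra R E)) = (tor deg d s).submatrix id e) :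
    x ∈ FGen R E (Ob deg) (VCImage φ) := by
  classical
  set d1 := cu (dmU R u) d with hd1
  set s1 := cu (dmU R u) s with hs1
  have hbd : IsBd deg d1 := by rw [hd1, ← dsu_one]; exact bd_cu 1 u hd
  have hct : IsCt deg d1 s1 := by rw [hd1, hs1, ← dsu_one]; exact ct_cu 1 u hs
  have hct2 := tct_ct deg ρ C d1 s1 hct hpat
  obtain ⟨x1, hx1, _⟩ := tor_unit hbd hct e
  obtain ⟨x2, hx2, _⟩ := tor_unit hbd hct2 e
  have t2 : x2 ∈ FGen R E (Ob deg) (VCImage φ) := by
    refine block_mem C hC (vcImage_cover φ) (fun i : Ob deg => ρ i.1)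
      (fun i : Ob deg => ρ (e i).1) x2 ?_
    intro i j g hg
    rw [hx2] at hg
    change ((d1 + tct ρ C s1) i.1 (e j).1).coeff g ≠ 0 at hg
    rw [Matrix.add_apply, coeff_ad] at hg
    by_cases h1 : (d1 i.1 (e j).1).coeff g = 0
    · rw [h1, zero_add] at hg
      exact tct_supp ρ C s1 _ _ g hg
    · exact hpat _ _ g h1
  have t1 : x1 ∈ FGen R E (Ob deg) (VCImage φ) := by
    obtain ⟨n1, y, n2, h1, h2, h3, h4⟩ := indep_factor hbd hct hct2 e x1 x2 hx1 hx2
    rw [h4]
    exact mul_mem (inv_mem (El_mem (vcImage_cover φ) _ h1))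
      (mul_mem (mul_mem (El_mem (vcImage_cover φ) _ h2) t2) (El_mem (vcImage_cover φ) _ h3))
  have hxx : x = (dmU R (fun i : Ob deg => u i.1))⁻¹ * x1
      * dmU R (fun i : Ob deg => u (e i).1) := by
    have h1 : x1 = dmU R (fun i : Ob deg => u i.1) * x
        * (dmU R (fun i : Ob deg => u (e i).1))⁻¹ := by
      apply Units.ext
      ext i j g
      rw [hx1, Units.val_mul, Units.val_mul, coeff_dmU]
      change ((d1 + s1) i.1 (e j).1).coeff g = _
      have h2 : d1 + s1 = cu (dmU R u) (d + s) := by rw [hd1, hs1, cu_add]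
      rw [h2]
      change (((dmU R u).val * (d + s) * (dmU R u)⁻¹.val) i.1 (e j).1).coeff g = _
      rw [coeff_dmU, hx]
      rfl
    rw [h1]; group
  rw [hxx]
  exact mul_mem (mul_mem (inv_mem (dmU_mem (vcImage_cover φ) _)) t1)
    (dmU_mem (vcImage_cover φ) _)

/-- invertible matrices with a block structure -/
theorem F_matrix (B : (Matrix ι ι (MonoidAlgebra R E))ˣ) (ρ : ι → ι) (u : ι → E)
    (C : ι → Subgroup E) (hC : ∀ b, VCImage φ (C b)) (hpat : InBlocks ρ C (cu (dmU R u) B.val)) :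
    B ∈ FGen R E ι (VCImage φ) := by
  classical
  have h1 : dmU R u * B * (dmU R u)⁻¹ ∈ FGen R E ι (VCImage φ) :=
    block_mem C hC (vcImage_cover φ) ρ ρ _ (fun i j g hg => hpat i j g hg)
  have h2 : B = (dmU R u)⁻¹ * (dmU R u * B * (dmU R u)⁻¹) * dmU R u := by group
  rw [h2]
  exact mul_mem (mul_mem (inv_mem (dmU_mem (vcImage_cover φ) _)) h1) (dmU_mem (vcImage_cover φ) _)

/-- the block contraction -/
theorem split_struct (deg : ι → ℤ) (d s : Matrix ι ι (MonoidAlgebra R E))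
    (hs : IsCt deg d s) (ρ : ι → ι) (u : ι → E) (C : ι → Subgroup E)
    (hpat : InBlocks ρ C (cu (dmU R u) d)) :
    ∃ t, IsCt deg (cu (dmU R u) d) t ∧ InBlocks ρ C t := by
  classical
  have hct : IsCt deg (cu (dmU R u) d) (cu (dmU R u) s) := by
    rw [← dsu_one]; exact ct_cu 1 u hs
  refine ⟨tct ρ C (cu (dmU R u) s), ?_, TH6.CR.tct_inBlocks ρ C (cu (dmU R u) s)⟩
  exact tct_ct deg ρ C (cu (dmU R u) d) (cu (dmU R u) s) hct hpat

end

end TH6.FB.U731

namespace Pool.Agent.U731.SG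

open Matrix TH57.Thr TH6.LF TH6.PF TH6.CR Pool.Agent.U731.SP

variable {R : Type} [Ring R] {E G : Type} [Group E] [Group G] (φ : E →* G)
  {ι : Type} [Fintype ι] [DecidableEq ι]

/-- `M` is controlled over `G`, apart from the identity of `G` on the diagonal, by a hermitian complex
matrix with span at most `s` whose nonzero coefficients, except those of the identity on the diagonal,
have absolute value at least one. -/
def CtrlSpan (M : Matrix ι ι (MonoidAlgebra R E)) (s : ℝ) : Prop :=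
  ∃ S : Matrix ι ι (MonoidAlgebra ℂ G),
    (∀ i j g, (S j i).coeff g⁻¹ = (starRingEnd ℂ) ((S i j).coeff g)) ∧
    (∀ i j g, (S i j).coeff g ≠ 0 → (i = j ∧ g = 1) ∨ 1 ≤ ‖(S i j).coeff g‖) ∧
    (∀ i j e, (M i j).coeff e ≠ 0 → (i = j ∧ φ e = 1) ∨ (S i j).coeff (φ e) ≠ 0) ∧ SpanK S s

theorem ctrlSpan_struct (hφ : Function.Surjective φ) (s : ℝ) (hs : s ^ 2 ≤ 18)
    (M : Matrix ι ι (MonoidAlgebra R E)) (h : CtrlSpan φ M s) :
    ∃ (ρ : ι → ι) (u : ι → E) (C : ι → Subgroup E),
      (∀ b, (∃ z : (C b).map φ, (Subgroup.zpowers z).FiniteIndex) ∧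
        (s < 4 → Finite ((C b).map φ))) ∧ InBlocks ρ C (cu (dmU R u) M) := by
  obtain ⟨S, h1, h2, h3, h4⟩ := h
  have h5 := spanLE_of_spanK S s h4
  obtain ⟨ρ, u, C, hC, hst⟩ := herm_struct_gen S h1
    (fun C => (∃ z : C, (Subgroup.zpowers z).FiniteIndex) ∧ (s < 4 → Finite C))
    fun b => ⟨hst_vc S h1 h2 s hs h5 b, fun hs4 => hst_finite S h1 h2 s hs4 h5 b⟩
  choose v hv using fun i => hφ (u i)
  refine ⟨ρ, v, fun b => (C b).comap φ, fun b => ?_, fun i j e hne => ?_⟩
  · rw [Subgroup.map_comap_eq_self_of_surjective hφ]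
    exact hC b
  · have h0 : (M i j).coeff ((v i)⁻¹ * e * v j) ≠ 0 := by
      rwa [← coeff_dmU]
    have h6 : ρ i = ρ j ∧ u i * φ ((v i)⁻¹ * e * v j) * (u j)⁻¹ ∈ C (ρ i) := by
      rcases h3 i j _ h0 with ⟨h7, h8⟩ | h7
      · subst h7
        refine ⟨rfl, ?_⟩
        rw [h8, mul_one, mul_inv_cancel]
        exact one_mem _
      · exact hst i j _ h7
    refine ⟨h6.1, ?_⟩
    have h9 := h6.2
    rw [map_mul, map_mul, map_inv, hv, hv] at h9
    have h10 : u i * ((u i)⁻¹ * φ e * u j) * (u j)⁻¹ = φ e := by group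
    rwa [h10] at h9

end Pool.Agent.U731.SG
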