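import Pool.Agent.U731.SP.Forms

set_option autoImplicit false
set_option linter.style.haveILetI false
set_option linter.unusedSectionVars false

/-! Quadratic and hermitian forms over group rings of arbitrary groups whose adjoint has its spectrum
in an interval of length at most `3 √2`, or less than `4`. -/

namespace Pool.Agent.U731.SG

open Matrix TH57.Thr TH6.LF TH6.PF Pool.Agent.N510 Pool.Agent.U731.SP

variable {G : Type} [Group G] {ι : Type}

/-- **Quadratic forms of span less than four over arbitrary groups.** -/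
theorem forms_span_fin [Fintype ι] [DecidableEq ι] (ψ : Matrix ι ι (MonoidAlgebra ℤ G)) (s : ℝ)
    (hs : s < 4) (hsp : SP.SpanLE (toReal (ψ + adj ψ)) s) :
    ∃ (ρ : ι → ι) (u : ι → G) (C : ι → Subgroup G)
      (θ : ∀ a, Matrix {i // ρ i = a} {i // ρ i = a} (MonoidAlgebra ℤ (C a)))
      (χ : Matrix ι ι (MonoidAlgebra ℤ G)),
      (∀ a, Finite (C a)) ∧
      Dm u * ψ * adj (Dm u) = indSum ρ C θ + (χ - adj χ) ∧
      (IsUnit (ψ + adj ψ) → ∀ a, IsUnit (θ a + adj (θ a))) := by
  have hH := herm_toReal (hermZ_sym ψ)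
  obtain ⟨ρ, u, C, hC, hst⟩ := herm_struct_gen (toReal (ψ + adj ψ)) hH (fun C => Finite C)
    fun b => hst_finite _ hH (big_toReal _) s hs hsp b
  obtain ⟨θ, χ, h1, h2, h3⟩ := forms_of_struct (fun C => Finite C) ψ ρ u C hC
    (fun i j h hne => by
      rw [one_smul] at hne
      refine hst i j h ?_
      rw [toReal_coeff]
      exact_mod_cast hne)
  simp only [one_smul] at h2 h3
  exact ⟨ρ, u, C, θ, χ, h1, h2, h3⟩

/-- Matrices with a block structure of their support, arbitrary coefficient ring of characteristic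
zero replaced by the integers: the blocks over the subgroups. -/
theorem herm_of_struct [Fintype ι] [DecidableEq ι] (Q : Subgroup G → Prop)
    (P : Matrix ι ι (MonoidAlgebra ℤ G)) (hP : adj P = P) (ρ : ι → ι) (u : ι → G)
    (C : ι → Subgroup G) (hC : ∀ a, Q (C a))
    (hstr : ∀ i j h, (P i j).coeff h ≠ 0 → ρ i = ρ j ∧ u i * h * (u j)⁻¹ ∈ C (ρ i)) :
    ∃ (θ : ∀ a, Matrix {i // ρ i = a} {i // ρ i = a} (MonoidAlgebra ℤ (C a))),
      (∀ a, Q (C a)) ∧ Dm u * P * adj (Dm u) = indSum ρ C θ ∧ (∀ a, adj (θ a) = θ a) ∧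
      (IsUnit P → ∀ a, IsUnit (θ a)) := by
  classical
  set B := Dm u * P * adj (Dm u) with hBd
  have hBc : ∀ i j g, (B i j).coeff g = (P i j).coeff ((u i)⁻¹ * g * u j) := Dm_mul u P
  have hB : ∀ i j g, (B i j).coeff g ≠ 0 → ρ i = ρ j ∧ g ∈ C (ρ i) := by
    intro i j g hne
    have h1 := hstr i j ((u i)⁻¹ * g * u j) (by rwa [hBc] at hne)
    have h3 : u i * ((u i)⁻¹ * g * u j) * (u j)⁻¹ = g := by group
    rwa [h3] at h1
  let θ : ∀ a, Matrix {i // ρ i = a} {i // ρ i = a} (MonoidAlgebra ℤ (C a)) := fun a i j =>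
    MonoidAlgebra.comapDomain (C a).subtype (C a).subtype_injective (B i.1 j.1)
  have hS : B = indSum ρ C θ := by
    ext i j g
    unfold indSum
    by_cases h : ρ j = ρ i
    · rw [dif_pos h]
      change _ = (MonoidAlgebra.mapDomain (C (ρ i)).subtype (MonoidAlgebra.comapDomain
        (C (ρ i)).subtype (C (ρ i)).subtype_injective (B i j))).coeff g
      rw [coeff_map_comap]
      by_cases h2 : g ∈ C (ρ i)
      · rw [if_pos h2]
      · rw [if_neg h2]
        by_contra h3
        exact h2 (hB i j g h3).2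
    · rw [dif_neg h]
      by_contra h3
      exact h (hB i j g h3).1.symm
  refine ⟨θ, hC, hS, fun a => ?_, fun hunit a => ?_⟩
  · ext i j g
    rw [coeff_adj]
    simp only [θ, MonoidAlgebra.coeff_comapDomain, Finsupp.comapDomain_apply]
    have h1 : adj B = B := by
      rw [hBd, adj_mul, adj_mul, adj_adj, hP, Matrix.mul_assoc]
    have h2 := congrArg (fun M : Matrix ι ι (MonoidAlgebra ℤ G) => (M i.1 j.1).coeff g.1) h1
    simp only [coeff_adj] at h2
    exact h2
  · have hDu := Dm_mul_inv u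
    obtain ⟨v, hv⟩ := hunit
    have hBN : B * (Dm u * (↑v⁻¹ : Matrix ι ι (MonoidAlgebra ℤ G)) * adj (Dm u)) = 1 := by
      rw [hBd, ← hv]
      calc Dm u * (v : Matrix ι ι (MonoidAlgebra ℤ G)) * adj (Dm u)
            * (Dm u * (↑v⁻¹ : Matrix ι ι (MonoidAlgebra ℤ G)) * adj (Dm u))
          = Dm u * ((v : Matrix ι ι (MonoidAlgebra ℤ G)) * ((adj (Dm u) * Dm u)
            * (↑v⁻¹ : Matrix ι ι (MonoidAlgebra ℤ G)))) * adj (Dm u) := by
              simp only [Matrix.mul_assoc]
        _ = 1 := by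
              rw [hDu.2, Matrix.one_mul, Units.mul_inv, Matrix.mul_one, hDu.1]
    have hNB : (Dm u * (↑v⁻¹ : Matrix ι ι (MonoidAlgebra ℤ G)) * adj (Dm u)) * B = 1 := by
      rw [hBd, ← hv]
      calc (Dm u * (↑v⁻¹ : Matrix ι ι (MonoidAlgebra ℤ G)) * adj (Dm u))
            * (Dm u * (v : Matrix ι ι (MonoidAlgebra ℤ G)) * adj (Dm u))
          = Dm u * ((↑v⁻¹ : Matrix ι ι (MonoidAlgebra ℤ G)) * ((adj (Dm u) * Dm u)
            * (v : Matrix ι ι (MonoidAlgebra ℤ G)))) * adj (Dm u) := by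
              simp only [Matrix.mul_assoc]
        _ = 1 := by
              rw [hDu.2, Matrix.one_mul, Units.inv_mul, Matrix.mul_one, hDu.1]
    have hBρ : ∀ i j, B i j ≠ 0 → ρ i = ρ j := by
      intro i j hne
      by_contra hcon
      apply hne
      ext g
      by_contra h0
      exact hcon (hB i j g h0).1
    have hblk : mpm (MonoidAlgebra.mapDomainRingHom ℤ (C a).subtype) (θ a)
        = B.submatrix Subtype.val Subtype.val := by
      ext i j g
      change (MonoidAlgebra.mapDomain (C a).subtype (MonoidAlgebra.comapDomain (C a).subtype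
          (C a).subtype_injective (B i.1 j.1))).coeff g = (B i.1 j.1).coeff g
      rw [coeff_map_comap]
      split_ifs with h
      · rfl
      · by_contra h0
        apply h
        have := (hB i.1 j.1 g (fun h' => h0 h'.symm)).2
        rwa [i.2] at this
    apply isUnit_of_isUnit_map
    rw [hblk]
    exact ⟨⟨_, _, mul_block ρ a B _ hBρ hBN, mul_block' ρ a B _ hBρ hNB⟩, rfl⟩

/-- **Hermitian forms of span at most `3 √2` over arbitrary groups.** -/
theorem herm_span [Fintype ι] [DecidableEq ι] (P : Matrix ι ι (MonoidAlgebra ℤ G))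
    (hP : adj P = P) (s : ℝ) (hs : s ^ 2 ≤ 18) (hsp : SP.SpanLE (toReal P) s) :
    ∃ (ρ : ι → ι) (u : ι → G) (C : ι → Subgroup G)
      (θ : ∀ a, Matrix {i // ρ i = a} {i // ρ i = a} (MonoidAlgebra ℤ (C a))),
      (∀ a, IsVC (C a)) ∧ Dm u * P * adj (Dm u) = indSum ρ C θ ∧ (∀ a, adj (θ a) = θ a) ∧
      (IsUnit P → ∀ a, IsUnit (θ a)) := by
  have hZ : HermZ P := fun i j g => by
    have h2 := congrArg (fun M : Matrix ι ι (MonoidAlgebra ℤ G) => (M i j).coeff g) hP
    simpa only [coeff_adj] using h2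
  obtain ⟨ρ, u, C, hC, hst⟩ := herm_struct (toReal P) (herm_toReal hZ)
    (big_toReal _) s hs hsp
  obtain ⟨θ, h1, h2, h3, h4⟩ := herm_of_struct (fun C => IsVC C) P hP ρ u C hC
    (fun i j h hne => by
      refine hst i j h ?_
      rw [toReal_coeff]
      exact_mod_cast hne)
  exact ⟨ρ, u, C, θ, h1, h2, h3, h4⟩

/-- **Hermitian forms of span less than four over arbitrary groups.** -/
theorem herm_span_fin [Fintype ι] [DecidableEq ι] (P : Matrix ι ι (MonoidAlgebra ℤ G))
    (hP : adj P = P) (s : ℝ) (hs : s < 4) (hsp : SP.SpanLE (toReal P) s) :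
    ∃ (ρ : ι → ι) (u : ι → G) (C : ι → Subgroup G)
      (θ : ∀ a, Matrix {i // ρ i = a} {i // ρ i = a} (MonoidAlgebra ℤ (C a))),
      (∀ a, Finite (C a)) ∧ Dm u * P * adj (Dm u) = indSum ρ C θ ∧ (∀ a, adj (θ a) = θ a) ∧
      (IsUnit P → ∀ a, IsUnit (θ a)) := by
  have hZ : HermZ P := fun i j g => by
    have h2 := congrArg (fun M : Matrix ι ι (MonoidAlgebra ℤ G) => (M i j).coeff g) hP
    simpa only [coeff_adj] using h2
  have hH := herm_toReal hZ
  obtain ⟨ρ, u, C, hC, hst⟩ := herm_struct_gen (toReal P) hH (fun C => Finite C)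
    fun b => hst_finite _ hH (big_toReal _) s hs hsp b
  obtain ⟨θ, h1, h2, h3, h4⟩ := herm_of_struct (fun C => Finite C) P hP ρ u C hC
    (fun i j h hne => by
      refine hst i j h ?_
      rw [toReal_coeff]
      exact_mod_cast hne)
  exact ⟨ρ, u, C, θ, h1, h2, h3, h4⟩

end Pool.Agent.U731.SG
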