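import Pool.Agent.U731.SG.ModSym

set_option autoImplicit false
set_option linter.unusedSectionVars false
set_option linter.style.haveILetI false

/-! Idempotent matrices over group rings with a block structure. -/

namespace Pool.Agent.U731.SG

open Matrix TH57.Thr TH6.LF TH6.PF Pool.Agent.N510 Pool.Agent.U731.SP ComplexConjugate

variable {R : Type} [Ring R] {G : Type} [Group G] {κ : Type} [Fintype κ] [DecidableEq κ]

/-- the blocks of a block sum are determined -/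
theorem blk_blockSum (ρ : κ → κ) (C : κ → Subgroup G)
    (θ : ∀ a, Matrix {i // ρ i = a} {i // ρ i = a} (MonoidAlgebra R (C a))) (a : κ) :
    blk ρ ρ C (blockSum ρ ρ C θ) a = θ a := by
  classical
  ext i j g
  obtain ⟨i, rfl⟩ := i
  obtain ⟨j, hj⟩ := j
  change (blockSum ρ ρ C θ i j).coeff g.1 = _
  unfold blockSum
  rw [dif_pos hj]
  change (MonoidAlgebra.mapDomain (C (ρ i)).subtype (θ (ρ i) ⟨i, rfl⟩ ⟨j, hj⟩)).coeff g.1 = _
  rw [MonoidAlgebra.coeff_mapDomain]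
  exact Finsupp.mapDomain_apply (C (ρ i)).subtype_injective _ g

/-- the blocks of an idempotent matrix with a block structure are idempotent -/
theorem idem_blocks (A : Matrix κ κ (MonoidAlgebra R G)) (hA : A * A = A)
    (ρ : κ → κ) (u : κ → G) (C : κ → Subgroup G)
    (hst : ∀ i j g, (A i j).coeff g ≠ 0 → ρ i = ρ j ∧ u i * g * (u j)⁻¹ ∈ C (ρ i)) :
    ∃ (θ : ∀ a, Matrix {i // ρ i = a} {i // ρ i = a} (MonoidAlgebra R (C a))),
      (dmU R u).val * A * (dmU R u)⁻¹.val = blockSum ρ ρ C θ ∧ ∀ a, θ a * θ a = θ a := by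
  classical
  obtain ⟨θ, -, h1, -⟩ := blocks_of_struct (fun _ => True) A ρ u C (fun _ => trivial) hst
  refine ⟨θ, h1, fun a => ?_⟩
  have h2 : blockSum ρ ρ C (fun a => θ a * θ a) = blockSum ρ ρ C θ := by
    rw [← blockSum_mul ρ ρ C ρ θ θ, ← h1]
    calc (dmU R u).val * A * (dmU R u)⁻¹.val * ((dmU R u).val * A * (dmU R u)⁻¹.val)
        = (dmU R u).val * A * ((dmU R u)⁻¹.val * (dmU R u).val) * A * (dmU R u)⁻¹.val := by
          simp only [Matrix.mul_assoc]
      _ = (dmU R u).val * (A * A) * (dmU R u)⁻¹.val := by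
          rw [(dmU R u).inv_mul, Matrix.mul_one, Matrix.mul_assoc _ A A]
      _ = _ := by rw [hA]
  have h3 := congrArg (fun M => blk ρ ρ C M a) h2
  simp only [blk_blockSum] at h3
  exact h3

/-- the blocks of a hermitian idempotent matrix with a block structure -/
theorem proj_blocks (A : Matrix κ κ (MonoidAlgebra ℂ G)) (hA : A * A = A)
    (hherm : ∀ i j g, (A j i).coeff g⁻¹ = conj ((A i j).coeff g))
    (ρ : κ → κ) (u : κ → G) (C : κ → Subgroup G)
    (hst : ∀ i j g, (A i j).coeff g ≠ 0 → ρ i = ρ j ∧ u i * g * (u j)⁻¹ ∈ C (ρ i)) :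
    ∃ (θ : ∀ a, Matrix {i // ρ i = a} {i // ρ i = a} (MonoidAlgebra ℂ (C a))),
      (dmU ℂ u).val * A * (dmU ℂ u)⁻¹.val = blockSum ρ ρ C θ ∧ (∀ a, θ a * θ a = θ a) ∧
      ∀ a i j g, (θ a j i).coeff g⁻¹ = conj ((θ a i j).coeff g) := by
  classical
  obtain ⟨θ, h1, h2⟩ := idem_blocks A hA ρ u C hst
  refine ⟨θ, h1, h2, fun a i j g => ?_⟩
  have h3 : θ a = blk ρ ρ C ((dmU ℂ u).val * A * (dmU ℂ u)⁻¹.val) a := by
    rw [h1, blk_blockSum]
  rw [h3]
  change ((((dmU ℂ u).val * A * (dmU ℂ u)⁻¹.val) j.1 i.1)).coeff (g⁻¹ : C a).1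
    = conj ((((dmU ℂ u).val * A * (dmU ℂ u)⁻¹.val) i.1 j.1).coeff g.1)
  rw [coeff_dmU, coeff_dmU, ← hherm]
  congr 1
  simp only [Subgroup.coe_inv, _root_.mul_inv_rev, inv_inv, mul_assoc]

end Pool.Agent.U731.SG
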