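import Pool.Agent.U731.SG.BassSym
import Pool.Agent.N510.CT.Mod2

set_option autoImplicit false
set_option linter.unusedSectionVars false
set_option linter.style.haveILetI false

/-! Modules presented by square matrices with a block structure. -/

namespace Pool.Agent.U731.SG

open Matrix TH57.Thr TH6.LF TH6.PF Pool.Agent.N510 Pool.Agent.U731.SP ComplexConjugate

/-- **Modules presented by square matrices with a block structure.** -/
theorem modules_of_struct (R : Type) [Ring R] (G : Type) [Group G]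
    (P : Type) [AddCommGroup P] [Module (MonoidAlgebra R G) P]
    (n : ℕ) (A : Matrix (Fin n) (Fin n) (MonoidAlgebra R G))
    (e : P ≃ₗ[MonoidAlgebra R G] Coker A)
    (ρ : Fin n → Fin n) (u : Fin n → G) (C : Fin n → Subgroup G)
    (hst : ∀ i j g, (A i j).coeff g ≠ 0 → ρ i = ρ j ∧ u i * g * (u j)⁻¹ ∈ C (ρ i)) :
    ∃ (q : Fin n → ℕ) (B : ∀ b, Matrix (Fin (q b)) (Fin (q b)) (MonoidAlgebra R (C b))),
      Nonempty (P ≃ₗ[MonoidAlgebra R G] ∀ b, Coker (indM (B b))) ∧
      (Module.Projective (MonoidAlgebra R G) P →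
        ∀ b, Module.Projective (MonoidAlgebra R (C b)) (Coker (B b))) := by
  classical
  let er : ∀ b, Fin (Fintype.card {i // ρ i = b}) ≃ {i // ρ i = b} := fun b =>
    (Fintype.equivFin _).symm
  refine ⟨fun b => Fintype.card {i // ρ i = b},
    fun b => (blkm A ρ ρ C u u b).submatrix (er b) (er b), ?_, ?_⟩
  · obtain ⟨φ⟩ := coker_pattern A ρ ρ C u u hst
    have h2 : ∀ b, Nonempty (((({j // ρ j = b} → MonoidAlgebra R G) ⧸
        LinearMap.range (TH57.Thr.ind (blkm A ρ ρ C u u b)).vecMulLinear)) ≃ₗ[MonoidAlgebra R G]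
        ((Fin (Fintype.card {j // ρ j = b}) → MonoidAlgebra R G) ⧸
        LinearMap.range (((blkm A ρ ρ C u u b).submatrix (er b) (er b)).map
          (MonoidAlgebra.mapDomainRingHom R (C b).subtype)).vecMulLinear)) := fun b =>
      coker_reindex (TH57.Thr.ind (blkm A ρ ρ C u u b)) (er b) (er b)
    exact ⟨(e.trans φ).trans (LinearEquiv.piCongrRight fun b => (h2 b).some)⟩
  · intro hP b
    obtain ⟨Y, hY⟩ := regular_of_projective A P hP e
    obtain ⟨Z, hZ⟩ := regular_blocks A ρ ρ C u u hst Y hY b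
    obtain ⟨ψ⟩ := coker_reindex (blkm A ρ ρ C u u b) (er b) (er b)
    haveI := projective_of_regular _ Z hZ
    exact Module.Projective.of_equiv ψ

/-- **Projective modules over a field and a torsion-free group.** -/
theorem free_of_struct (K : Type) [Field K] (G : Type) [Group G]
    (htf : ∀ g : G, ∀ k : ℕ, 0 < k → g ^ k = 1 → g = 1)
    (P : Type) [AddCommGroup P] [Module (MonoidAlgebra K G) P]
    (hP : Module.Projective (MonoidAlgebra K G) P)
    (n : ℕ) (A : Matrix (Fin n) (Fin n) (MonoidAlgebra K G))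
    (e : P ≃ₗ[MonoidAlgebra K G] Coker A)
    (ρ : Fin n → Fin n) (u : Fin n → G) (C : Fin n → Subgroup G) (hC : ∀ a, IsVC (C a))
    (hst : ∀ i j g, (A i j).coeff g ≠ 0 → ρ i = ρ j ∧ u i * g * (u j)⁻¹ ∈ C (ρ i)) :
    Module.Free (MonoidAlgebra K G) P := by
  classical
  obtain ⟨q, B, ⟨φ⟩, hproj⟩ := modules_of_struct K G P n A e ρ u C hst
  have hcyc : ∀ b, IsCyclic (C b) := by
    intro b
    obtain ⟨t, ht⟩ := hC b
    exact isCyclic_of_finiteIndex (S := C b) (fun g n hn h => Subtype.ext
      (htf g.1 n hn (by simpa using congrArg Subtype.val h))) (Subgroup.zpowers t)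
      inferInstance ht
  have hreg : ∀ b, ∃ r : ℕ, Nonempty (((Fin (q b) → MonoidAlgebra K G) ⧸
      LinearMap.range ((B b).map
        (MonoidAlgebra.mapDomainRingHom K (C b).subtype)).vecMulLinear)
        ≃ₗ[MonoidAlgebra K G] (Fin r → MonoidAlgebra K G)) := by
    intro b
    obtain ⟨Y, hY⟩ := regular_of_projective (B b) _ (hproj hP b) (LinearEquiv.refl _ _)
    obtain ⟨S, i1, i2, i3, ⟨es⟩⟩ := pid_of_cyclic K (hcyc b) (fun g n hn h => Subtype.ext
      (htf g.1 n hn (by simpa using congrArg Subtype.val h)))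
    exact free_of_regular es (MonoidAlgebra.mapDomainRingHom K (C b).subtype) (B b) Y hY
  choose r hr using hreg
  have φ' := φ.trans (LinearEquiv.piCongrRight fun b => (hr b).some)
  exact Module.Free.of_equiv φ'.symm

/-- The module of an idempotent matrix is the cokernel of the complementary one. -/
theorem range_coker {S : Type} [Ring S] {n : ℕ} (A : Matrix (Fin n) (Fin n) S) (hA : A * A = A) :
    Nonempty (LinearMap.range A.vecMulLinear ≃ₗ[S] Coker (1 - A)) := by
  have h1 : LinearMap.ker A.vecMulLinear.rangeRestrict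
      = LinearMap.range (1 - A : Matrix (Fin n) (Fin n) S).vecMulLinear := by
    ext x
    rw [LinearMap.ker_rangeRestrict, LinearMap.mem_ker, LinearMap.mem_range]
    constructor
    · intro h
      refine ⟨x, ?_⟩
      rw [Matrix.vecMulLinear_apply] at h ⊢
      rw [Matrix.vecMul_sub, Matrix.vecMul_one, h, sub_zero]
    · rintro ⟨y, rfl⟩
      rw [Matrix.vecMulLinear_apply, Matrix.vecMulLinear_apply, Matrix.vecMul_vecMul,
        Matrix.sub_mul, hA, Matrix.one_mul, sub_self, Matrix.vecMul_zero]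
  exact ⟨((Submodule.quotEquivOfEq _ _ h1.symm).trans
    (A.vecMulLinear.rangeRestrict.quotKerEquivOfSurjective
      A.vecMulLinear.surjective_rangeRestrict)).symm⟩

/-- the projective module of an idempotent matrix -/
theorem projective_range {S : Type} [Ring S] {n : ℕ} (A : Matrix (Fin n) (Fin n) S)
    (hA : A * A = A) : Module.Projective S (LinearMap.range A.vecMulLinear) := by
  refine Module.Projective.of_split (LinearMap.range A.vecMulLinear).subtype
    A.vecMulLinear.rangeRestrict ?_
  refine LinearMap.ext fun z => ?_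
  obtain ⟨_, ⟨x, rfl⟩⟩ := z
  apply Subtype.ext
  change (x ᵥ* A) ᵥ* A = x ᵥ* A
  rw [Matrix.vecMul_vecMul, hA]

theorem free_of_idem_struct (K : Type) [Field K] (G : Type) [Group G]
    (htf : ∀ g : G, ∀ k : ℕ, 0 < k → g ^ k = 1 → g = 1) {n : ℕ}
    (A : Matrix (Fin n) (Fin n) (MonoidAlgebra K G)) (hA : A * A = A)
    (ρ : Fin n → Fin n) (u : Fin n → G) (C : Fin n → Subgroup G) (hC : ∀ a, IsVC (C a))
    (hst : ∀ i j g, (A i j).coeff g ≠ 0 → ρ i = ρ j ∧ u i * g * (u j)⁻¹ ∈ C (ρ i)) :
    Module.Free (MonoidAlgebra K G) (LinearMap.range A.vecMulLinear) := by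
  classical
  obtain ⟨e⟩ := range_coker A hA
  refine free_of_struct K G htf _ (projective_range A hA) n (1 - A) e ρ u C hC ?_
  intro i j g hg
  by_cases h : (A i j).coeff g = 0
  · rw [Matrix.sub_apply, MonoidAlgebra.coeff_sub, Finsupp.sub_apply, h, sub_zero,
      Matrix.one_apply] at hg
    split_ifs at hg with h1
    · rw [MonoidAlgebra.one_def, MonoidAlgebra.coeff_single, Finsupp.single_apply] at hg
      split_ifs at hg with h2
      · subst h1 h2
        refine ⟨rfl, ?_⟩
        rw [mul_one, mul_inv_cancel]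
        exact one_mem _
      · exact absurd rfl hg
    · exact absurd rfl hg
  · exact hst i j g h

/-- Below the length four over a torsion-free group the matrix comes from the coefficient ring. -/
theorem const_of_struct (R : Type) [Ring R] (G : Type) [Group G]
    (htf : ∀ g : G, ∀ k : ℕ, 0 < k → g ^ k = 1 → g = 1) {n : ℕ}
    (A : Matrix (Fin n) (Fin n) (MonoidAlgebra R G))
    (ρ : Fin n → Fin n) (u : Fin n → G) (C : Fin n → Subgroup G) (hC : ∀ a, Finite (C a))
    (hst : ∀ i j g, (A i j).coeff g ≠ 0 → ρ i = ρ j ∧ u i * g * (u j)⁻¹ ∈ C (ρ i)) :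
    (dmU R u).val * A * (dmU R u)⁻¹.val
      = (Matrix.of fun i j => (A i j).coeff ((u i)⁻¹ * u j)).map
        (fun r => MonoidAlgebra.single (1 : G) r) := by
  classical
  ext i j g
  rw [coeff_dmU, Matrix.map_apply, MonoidAlgebra.coeff_single, Finsupp.single_apply,
    Matrix.of_apply]
  split_ifs with h
  · rw [← h, mul_one]
  · by_contra h1
    obtain ⟨h2, h3⟩ := hst i j _ h1
    haveI := hC (ρ i)
    have h4 : (⟨_, h3⟩ : C (ρ i)) ^ Nat.card (C (ρ i)) = 1 := pow_card_eq_one'
    have h5 := htf _ _ Nat.card_pos (congrArg Subtype.val h4)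
    apply h
    rw [← h5]
    group

end Pool.Agent.U731.SG
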