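import Pool.Agent.U731.SG.Sym
import Pool.Agent.TH6.PF.OddD

set_option autoImplicit false
set_option linter.style.haveILetI false
set_option linter.unusedSectionVars false

/-! Isometries of hyperbolic forms supported in a hermitian matrix of small spectral span. -/

namespace Pool.Agent.U731.SG

open Matrix TH57.Thr TH6.LF TH6.PF Pool.Agent.N510 Pool.Agent.U731.SP ComplexConjugate

section vc

variable {G : Type} [Group G]

/-- subgroups of virtually cyclic groups -/
theorem isVC_mono {H K : Subgroup G} (h : H ≤ K) (hK : IsVC K) : IsVC H := by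
  obtain ⟨z, hz⟩ := hK
  set Z : Subgroup G := Subgroup.zpowers (z : G) with hZd
  have hZK : Z.subgroupOf K = Subgroup.zpowers z := by
    ext x
    rw [Subgroup.mem_subgroupOf, hZd, Subgroup.mem_zpowers_iff, Subgroup.mem_zpowers_iff]
    constructor
    · rintro ⟨n, hn⟩
      exact ⟨n, Subtype.ext (by simpa using hn)⟩
    · rintro ⟨n, hn⟩
      exact ⟨n, by simpa using congrArg Subtype.val hn⟩
  have h1 : Z.relIndex K ≠ 0 := by
    rw [Subgroup.relIndex, hZK]
    exact hz.index_ne_zero
  have h2 : Z.relIndex H ≠ 0 := fun h0 => h1 (Subgroup.relIndex_eq_zero_of_le_right h h0)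
  have h3 : (H ⊓ Z).relIndex H ≠ 0 := by
    rw [Subgroup.inf_relIndex_left]
    exact h2
  haveI : IsCyclic Z := ⟨⟨⟨z, Subgroup.mem_zpowers _⟩, by
    rintro ⟨x, hx⟩
    rw [hZd, Subgroup.mem_zpowers_iff] at hx
    obtain ⟨n, hn⟩ := hx
    exact Subgroup.mem_zpowers_iff.2 ⟨n, Subtype.ext (by simpa using hn)⟩⟩⟩
  haveI : IsCyclic (H ⊓ Z : Subgroup G) := isCyclic_of_injective
    (Subgroup.inclusion (inf_le_right : H ⊓ Z ≤ Z)) (Subgroup.inclusion_injective _)
  obtain ⟨w, hw⟩ := IsCyclic.exists_generator (α := (H ⊓ Z : Subgroup G))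
  refine ⟨⟨w.1, w.2.1⟩, ?_⟩
  have h4 : Subgroup.zpowers (⟨w.1, w.2.1⟩ : H) = (H ⊓ Z).subgroupOf H := by
    ext x
    rw [Subgroup.mem_subgroupOf, Subgroup.mem_zpowers_iff]
    constructor
    · rintro ⟨n, hn⟩
      rw [← hn]
      simpa using zpow_mem w.2 n
    · intro hx
      obtain ⟨n, hn⟩ := Subgroup.mem_zpowers_iff.1 (hw ⟨x.1, hx⟩)
      exact ⟨n, Subtype.ext (by simpa using congrArg Subtype.val hn)⟩
  rw [h4]
  exact ⟨h3⟩

end vc

section eqs

variable {G : Type} [Group G] {κ : Type}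

/-- the stabiliser of a class of an invariant equivalence relation -/
def est (E : Setoid (G × κ)) (hE : ∀ (g : G) u v, E u v → E (hv g u) (hv g v)) (b : G × κ) :
    Subgroup G where
  carrier := {g | E b (hv g b)}
  mul_mem' := by
    intro g h hg' hh
    change E b (hv (g * h) b)
    rw [hv_mul]
    exact E.trans hg' (hE g _ _ hh)
  one_mem' := by
    change E b (hv 1 b)
    rw [hv_one]
  inv_mem' := by
    intro g hg'
    change E b (hv g⁻¹ b)
    have := hE g⁻¹ _ _ hg'
    rw [← hv_mul, inv_mul_cancel, hv_one] at this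
    exact E.symm this

theorem est_struct (E : Setoid (G × κ)) (hE : ∀ (g : G) u v, E u v → E (hv g u) (hv g v)) :
    ∃ (ρ : κ → κ) (u : κ → G), (∀ p q, E (1, p) (1, q) → ρ p = ρ q ∧ u p = u q) ∧
      ∀ i j h, E (1, i) (h, j) ↔ ρ i = ρ j ∧ u i * h * (u j)⁻¹ ∈ est E hE (1, ρ i) := by
  classical
  let bs : κ → G × κ := fun i => (1, i)
  let st : Setoid κ :=
    { r := fun p q => ∃ g : G, E (bs p) (hv g (bs q))
      iseqv := by
        refine ⟨fun p => ⟨1, by rw [hv_one]⟩, ?_, ?_⟩
        · rintro p q ⟨g, hg'⟩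
          refine ⟨g⁻¹, ?_⟩
          have := hE g⁻¹ _ _ hg'
          rw [← hv_mul, inv_mul_cancel, hv_one] at this
          exact E.symm this
        · rintro p q r ⟨g, hg'⟩ ⟨h, hh⟩
          refine ⟨g * h, ?_⟩
          rw [hv_mul]
          exact E.trans hg' (hE g _ _ hh) }
  let ρ : κ → κ := fun p => (Quotient.mk st p).out
  have hρ : ∀ p, ∃ g : G, E (bs (ρ p)) (hv g (bs p)) := fun p =>
    Quotient.exact (Quotient.out_eq (Quotient.mk st p))
  let u : κ → G := fun p => Classical.epsilon fun g => E (bs (ρ p)) (hv g (bs p))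
  have hu : ∀ p, E (bs (ρ p)) (hv (u p) (bs p)) := fun p => Classical.epsilon_spec (hρ p)
  have hbs : ∀ (h : G) (j : κ), (h, j) = hv h (bs j) := fun h j => by simp [hv, bs]
  refine ⟨ρ, u, ?_, ?_⟩
  · intro p q hpq
    have h1 : ρ p = ρ q := by
      have : Quotient.mk st p = Quotient.mk st q := Quotient.sound ⟨1, by rw [hv_one]; exact hpq⟩
      simp only [ρ, this]
    refine ⟨h1, ?_⟩
    have h2 : (fun g => E (bs (ρ p)) (hv g (bs p))) = fun g => E (bs (ρ q)) (hv g (bs q)) := by
      funext g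
      rw [h1]
      have h3 : E (hv g (bs p)) (hv g (bs q)) := hE g _ _ hpq
      exact propext ⟨fun h => E.trans h h3, fun h => E.trans h (E.symm h3)⟩
    simp only [u, h2]
  · intro i j h
    rw [hbs h j]
    constructor
    · intro hreach
      have heq : ρ i = ρ j := by
        have : Quotient.mk st i = Quotient.mk st j := Quotient.sound ⟨h, hreach⟩
        simp only [ρ, this]
      refine ⟨heq, ?_⟩
      change E (bs (ρ i)) (hv (u i * h * (u j)⁻¹) (bs (ρ i)))
      have h1 := hu i
      have h2 := hE (u i) _ _ hreach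
      have h3 := hu j
      rw [← heq] at h3
      have h4 := hE (u i * h * (u j)⁻¹) _ _ h3
      have e : hv (u i * h * (u j)⁻¹) (hv (u j) (bs j)) = hv (u i) (hv h (bs j)) := by
        rw [← hv_mul, ← hv_mul]
        congr 1
        group
      rw [e] at h4
      exact E.trans (E.trans h1 h2) (E.symm h4)
    · rintro ⟨heq, hmem⟩
      change E (bs (ρ i)) (hv (u i * h * (u j)⁻¹) (bs (ρ i))) at hmem
      have h3 := hu j
      rw [← heq] at h3
      have h4 := hE (u i * h * (u j)⁻¹) _ _ h3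
      have e : hv (u i * h * (u j)⁻¹) (hv (u j) (bs j)) = hv (u i) (hv h (bs j)) := by
        rw [← hv_mul, ← hv_mul]
        congr 1
        group
      rw [e] at h4
      have h5 : E (hv (u i) (bs i)) (hv (u i) (hv h (bs j))) :=
        E.trans (E.symm (hu i)) (E.trans hmem h4)
      have h6 := hE (u i)⁻¹ _ _ h5
      rw [← hv_mul, ← hv_mul, inv_mul_cancel, hv_one, hv_one] at h6
      exact h6

end eqs

section supp

variable {R : Type} [Ring R] {G : Type} [Group G] {κ : Type}

/-- adjacency in the support of a matrix -/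
def sad (A : Matrix κ κ (MonoidAlgebra R G)) (u v : G × κ) : Prop :=
  (A u.2 v.2).coeff (u.1⁻¹ * v.1) ≠ 0

theorem sad_hv (A : Matrix κ κ (MonoidAlgebra R G)) (g : G) (u v : G × κ) (h : sad A u v) :
    sad A (hv g u) (hv g v) := by
  simpa [sad, hv, mul_assoc] using h

/-- connectivity in the support of a matrix -/
def sE (A : Matrix κ κ (MonoidAlgebra R G)) : Setoid (G × κ) := Relation.EqvGen.setoid (sad A)

theorem sE_hv (A : Matrix κ κ (MonoidAlgebra R G)) (g : G) (u v : G × κ) (h : sE A u v) :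
    sE A (hv g u) (hv g v) := by
  change Relation.EqvGen (sad A) u v at h
  change Relation.EqvGen (sad A) (hv g u) (hv g v)
  induction h with
  | rel x y h => exact Relation.EqvGen.rel _ _ (sad_hv A g x y h)
  | refl x => exact Relation.EqvGen.refl _
  | symm x y _ ih => exact Relation.EqvGen.symm _ _ ih
  | trans x y z _ _ ih1 ih2 => exact Relation.EqvGen.trans _ _ _ ih1 ih2

theorem sE_of (A : Matrix κ κ (MonoidAlgebra R G)) (i j : κ) (h : G)
    (hne : (A i j).coeff h ≠ 0) : sE A (1, i) (h, j) :=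
  Relation.EqvGen.rel _ _ (by simpa [sad] using hne)

/-- The support of the inverse is contained in the relation of connectivity. -/
theorem inv_sE [Fintype κ] [DecidableEq κ] (A : (Matrix κ κ (MonoidAlgebra R G))ˣ) (i j : κ)
    (h : G) (hne : (A⁻¹.val i j).coeff h ≠ 0) : sE A.val (1, i) (h, j) := by
  obtain ⟨ρ, u, -, hst⟩ := est_struct (sE A.val) (sE_hv A.val)
  set B : (Matrix κ κ (MonoidAlgebra R G))ˣ := dmU R u * A * (dmU R u)⁻¹ with hBd
  have hBi : B⁻¹ = dmU R u * A⁻¹ * (dmU R u)⁻¹ := by rw [hBd]; group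
  have hBs : ∀ i j g, (B.val i j).coeff g ≠ 0 →
      ρ i = ρ j ∧ g ∈ est (sE A.val) (sE_hv A.val) (1, ρ i) := by
    intro i j g hg
    rw [hBd, Units.val_mul, Units.val_mul, coeff_dmU] at hg
    have h1 := (hst i j _).1 (sE_of A.val i j _ hg)
    refine ⟨h1.1, ?_⟩
    have h2 := h1.2
    have h3 : u i * ((u i)⁻¹ * g * u j) * (u j)⁻¹ = g := by group
    rwa [h3] at h2
  have hinv := inv_pattern ρ ρ (fun b => est (sE A.val) (sE_hv A.val) (1, b)) B.val B⁻¹.val
    B.mul_inv B.inv_mul hBs
  have h1 : (B⁻¹.val i j).coeff (u i * h * (u j)⁻¹) ≠ 0 := by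
    rw [hBi, Units.val_mul, Units.val_mul, coeff_dmU]
    have h3 : (u i)⁻¹ * (u i * h * (u j)⁻¹) * u j = h := by group
    rwa [h3]
  exact (hst i j h).2 (hinv i j _ h1)

/-- The support lies in that of a hermitian matrix, up to the identity on the diagonal. -/
theorem sE_le (A : Matrix κ κ (MonoidAlgebra R G)) (S : Matrix κ κ (MonoidAlgebra ℂ G))
    (hS : Herm S) (h3 : ∀ i j g, (A i j).coeff g ≠ 0 → (i = j ∧ g = 1) ∨ (S i j).coeff g ≠ 0)
    (u v : G × κ) (h : sE A u v) : (hg S hS).Reachable u v := by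
  change Relation.EqvGen (sad A) u v at h
  induction h with
  | rel x y h =>
    rcases h3 _ _ _ h with ⟨h1, h2⟩ | h1
    · have : x = y := Prod.ext (inv_mul_eq_one.1 h2) h1
      rw [this]
    · by_cases hxy : x = y
      · rw [hxy]
      · exact SimpleGraph.Adj.reachable ⟨hxy, h1⟩
  | refl x => exact SimpleGraph.Reachable.refl _
  | symm x y _ ih => exact ih.symm
  | trans x y z _ _ ih1 ih2 => exact ih1.trans ih2

end supp

section inv

theorem eqvGen_or {α : Type} {r : α → α → Prop} (r' : α → α → Prop) {x : α} (y : α)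
    (h : Relation.EqvGen r x y) : Relation.EqvGen (fun u v => r u v ∨ r' u v) x y := by
  induction h with
  | rel x y h => exact Relation.EqvGen.rel _ _ (Or.inl h)
  | refl x => exact Relation.EqvGen.refl _
  | symm x y _ ih => exact Relation.EqvGen.symm _ _ ih
  | trans x y z _ _ ih1 ih2 => exact Relation.EqvGen.trans _ _ _ ih1 ih2

variable {R : Type} [Ring R] {G : Type} [Group G] {κ : Type} (br : κ → κ)
  (hbr : ∀ i, br (br i) = i)

/-- the involution on the vertices -/
def bvv (v : G × κ) : G × κ := (v.1, br v.2)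

theorem bvv_hv (g : G) (v : G × κ) : bvv br (hv g v) = hv g (bvv br v) := rfl

/-- connectivity up to the involution -/
def tE (A : Matrix κ κ (MonoidAlgebra R G)) : Setoid (G × κ) :=
  Relation.EqvGen.setoid fun u v => sad A u v ∨ v = bvv br u

theorem tE_hv (A : Matrix κ κ (MonoidAlgebra R G)) (g : G) (u v : G × κ) (h : tE br A u v) :
    tE br A (hv g u) (hv g v) := by
  change Relation.EqvGen (fun u v => sad A u v ∨ v = bvv br u) u v at h
  change Relation.EqvGen (fun u v => sad A u v ∨ v = bvv br u) (hv g u) (hv g v)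
  induction h with
  | rel x y h =>
    refine Relation.EqvGen.rel _ _ (h.imp (sad_hv A g x y) fun h => ?_)
    rw [h, bvv_hv]
  | refl x => exact Relation.EqvGen.refl _
  | symm x y _ ih => exact Relation.EqvGen.symm _ _ ih
  | trans x y z _ _ ih1 ih2 => exact Relation.EqvGen.trans _ _ _ ih1 ih2

include hbr in
theorem sE_bvv (A : Matrix κ κ (MonoidAlgebra R G))
    (hU : ∀ i j h, (A i j).coeff h ≠ 0 → sE A (1, br i) (h, br j)) (u v : G × κ)
    (h : sE A u v) : sE A (bvv br u) (bvv br v) := by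
  change Relation.EqvGen (sad A) u v at h
  induction h with
  | rel x y h =>
    have h1 := sE_hv A x.1 _ _ (hU _ _ _ h)
    simpa [hv, bvv] using h1
  | refl x => exact (sE A).refl _
  | symm x y _ ih => exact (sE A).symm ih
  | trans x y z _ _ ih1 ih2 => exact (sE A).trans ih1 ih2

include hbr in
theorem tE_cases (A : Matrix κ κ (MonoidAlgebra R G))
    (hU : ∀ i j h, (A i j).coeff h ≠ 0 → sE A (1, br i) (h, br j)) (u v : G × κ)
    (h : tE br A u v) : sE A u v ∨ sE A u (bvv br v) := by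
  have hbb : ∀ v : G × κ, bvv br (bvv br v) = v := fun v => by simp [bvv, hbr]
  change Relation.EqvGen (fun u v => sad A u v ∨ v = bvv br u) u v at h
  induction h with
  | rel x y h =>
    rcases h with h | h
    · exact Or.inl (Relation.EqvGen.rel _ _ h)
    · refine Or.inr ?_
      rw [h, hbb]
  | refl x => exact Or.inl ((sE A).refl _)
  | symm x y _ ih =>
    rcases ih with ih | ih
    · exact Or.inl ((sE A).symm ih)
    · refine Or.inr ?_
      have := sE_bvv br hbr A hU _ _ ih
      rw [hbb] at this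
      exact (sE A).symm this
  | trans x y z _ _ ih1 ih2 =>
    rcases ih1 with ih1 | ih1 <;> rcases ih2 with ih2 | ih2
    · exact Or.inl ((sE A).trans ih1 ih2)
    · exact Or.inr ((sE A).trans ih1 ih2)
    · exact Or.inr ((sE A).trans ih1 (sE_bvv br hbr A hU _ _ ih2))
    · have := sE_bvv br hbr A hU _ _ ih2
      rw [hbb] at this
      exact Or.inl ((sE A).trans ih1 this)

include hbr in
/-- The stabilisers of the two relations are commensurable. -/
theorem relIndex_tE (A : Matrix κ κ (MonoidAlgebra R G))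
    (hU : ∀ i j h, (A i j).coeff h ≠ 0 → sE A (1, br i) (h, br j)) (b : G × κ) :
    est (sE A) (sE_hv A) b ≤ est (tE br A) (tE_hv br A) b ∧
      (est (sE A) (sE_hv A) b).relIndex (est (tE br A) (tE_hv br A) b) ≠ 0 := by
  classical
  have hle : est (sE A) (sE_hv A) b ≤ est (tE br A) (tE_hv br A) b := by
    intro g hg
    change Relation.EqvGen (sad A) b (hv g b) at hg
    change Relation.EqvGen (fun u v => sad A u v ∨ v = bvv br u) b (hv g b)
    exact eqvGen_or _ _ hg
  refine ⟨hle, ?_⟩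
  have hbb : ∀ v : G × κ, bvv br (bvv br v) = v := fun v => by simp [bvv, hbr]
  set H := est (sE A) (sE_hv A) b with hH
  set K := est (tE br A) (tE_hv br A) b with hK
  have aux : ∀ s : G, s ∈ K → s ∉ H → sE A b (bvv br (hv s b)) := by
    intro s hs hs'
    rcases tE_cases br hbr A hU _ _ hs with h | h
    · exact absurd h hs'
    · exact h
  have hkey : ∀ s t : G, s ∈ K → t ∈ K → s ∉ H → t ∉ H → s⁻¹ * t ∈ H := by
    intro s t hs ht hs' ht'
    have h1 := (sE A).trans ((sE A).symm (aux s hs hs')) (aux t ht ht')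
    have h2 := sE_bvv br hbr A hU _ _ h1
    rw [hbb, hbb] at h2
    have h3 := sE_hv A s⁻¹ _ _ h2
    rw [← hv_mul, ← hv_mul, inv_mul_cancel, hv_one] at h3
    exact h3
  have hfin : (H.subgroupOf K).FiniteIndex := by
    rw [Subgroup.finiteIndex_iff_finite_quotient]
    refine Finite.of_injective (β := Prop)
      (fun x : K ⧸ (H.subgroupOf K) => x = QuotientGroup.mk 1) ?_
    intro x y hxy
    induction x using QuotientGroup.induction_on with | H s => ?_
    induction y using QuotientGroup.induction_on with | H t => ?_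
    simp only [eq_iff_iff] at hxy
    rw [eq_comm (a := (QuotientGroup.mk s : _ ⧸ _)),
      eq_comm (a := (QuotientGroup.mk t : _ ⧸ _))] at hxy
    rw [QuotientGroup.eq, QuotientGroup.eq] at hxy
    simp only [inv_one, one_mul, Subgroup.mem_subgroupOf] at hxy
    rw [QuotientGroup.eq, Subgroup.mem_subgroupOf]
    by_cases h : s.1 ∈ H
    · exact mul_mem (inv_mem h) (hxy.1 h)
    · exact hkey s.1 t.1 s.2 t.2 h (fun h' => h (hxy.2 h'))
  exact hfin.index_ne_zero

end inv

section iso

variable {R : Type} [Ring R] [StarRing R] {G : Type} [Group G] {m : Type} [Fintype m]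
  [DecidableEq m]

/-- The block structure of an isometry supported in a hermitian matrix. -/
theorem iso_struct (P : Subgroup G → Prop) (hP : ∀ H K : Subgroup G, H ≤ K → P K → P H)
    (hP' : ∀ H K : Subgroup G, H ≤ K → H.relIndex K ≠ 0 → P H → P K)
    (ε : ℤ) (hε : ε * ε = 1)
    (α : (Matrix (m ⊕ m) (m ⊕ m) (MonoidAlgebra R G))ˣ) (hα : QIso ε α.val)
    (S : Matrix (m ⊕ m) (m ⊕ m) (MonoidAlgebra ℂ G)) (hS : Herm S)
    (h3 : ∀ i j g, (α.val i j).coeff g ≠ 0 → (i = j ∧ g = 1) ∨ (S i j).coeff g ≠ 0)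
    (hst : ∀ b, P (hst S hS b)) :
    ∃ (ρ : m ⊕ m → m ⊕ m) (u : m ⊕ m → G) (C : m ⊕ m → Subgroup G), (∀ a, P (C a)) ∧
      (∀ c, ρ (Sum.inl c) = ρ (Sum.inr c)) ∧ (∀ c, u (Sum.inl c) = u (Sum.inr c)) ∧
      ∀ i j g, (((dmU R u).val * α.val * (dmU R u)⁻¹.val) i j).coeff g ≠ 0 →
        ρ i = ρ j ∧ g ∈ C (ρ i) := by
  classical
  have hU : ∀ i j h, (α.val i j).coeff h ≠ 0 → sE α.val (1, bsw i) (h, bsw j) := by
    intro i j h hne
    have h1 := hα.inv_supp ε hε α i j h hne
    have h2 := sE_hv α.val h _ _ (inv_sE α (bsw j) (bsw i) h⁻¹ h1)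
    have h4 := (sE α.val).symm h2
    simpa [hv] using h4
  obtain ⟨ρ, u, h1, h2⟩ := est_struct (tE bsw α.val) (tE_hv bsw α.val)
  have hb : ∀ c : m, tE bsw α.val ((1 : G), Sum.inl c) (1, Sum.inr c) := fun c =>
    Relation.EqvGen.rel _ _ (Or.inr rfl)
  refine ⟨ρ, u, fun b => est (tE bsw α.val) (tE_hv bsw α.val) (1, b), fun b => ?_,
    fun c => (h1 _ _ (hb c)).1, fun c => (h1 _ _ (hb c)).2, ?_⟩
  · obtain ⟨h4, h5⟩ := relIndex_tE bsw bsw_bsw α.val hU (1, b)
    refine hP' _ _ h4 h5 (hP _ _ ?_ (hst (1, b)))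
    intro g hg
    exact sE_le α.val S hS h3 _ _ hg
  · intro i j g hg
    rw [coeff_dmU] at hg
    have h5 := (h2 i j _).1 (Relation.EqvGen.rel _ _ (Or.inl (by simpa [sad] using hg)))
    refine ⟨h5.1, ?_⟩
    have h6 := h5.2
    have h7 : u i * ((u i)⁻¹ * g * u j) * (u j)⁻¹ = g := by group
    rwa [h7] at h6

end iso

end Pool.Agent.U731.SG
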