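import Pool.Agent.U731.SG.Odd

set_option autoImplicit false
set_option linter.style.haveILetI false
set_option linter.unusedSectionVars false

/-! Isometries of hyperbolic forms supported in a hermitian matrix of small spectral span: products
of isometries over small subgroups. -/

namespace Pool.Agent.U731.SG

open Matrix TH57.Thr TH6.LF TH6.PF Pool.Agent.U731.SP ComplexConjugate

section defs

variable (R : Type) [Ring R] [StarRing R] (G : Type) [Group G] (m : Type) [Fintype m]
  [DecidableEq m]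

/-- The subgroup of the general linear group over `RG` generated by the isometries of the
hyperbolic form over the group rings of the subgroups with the property `P`. -/
noncomputable def PIso (P : Subgroup G → Prop) (ε : ℤ) :
    Subgroup (Matrix (m ⊕ m) (m ⊕ m) (MonoidAlgebra R G))ˣ :=
  Subgroup.closure {x | ∃ (C : Subgroup G) (y : (Matrix (m ⊕ m) (m ⊕ m) (MonoidAlgebra R C))ˣ),
    P C ∧ QIso ε y.val ∧ x.val = y.val.map (MonoidAlgebra.mapDomain C.subtype)}

end defs

section iso

variable {R : Type} [Ring R] [StarRing R] {G : Type} [Group G] {m : Type} [Fintype m]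
  [DecidableEq m]

/-- One block of a patterned isometry. -/
theorem block_isoP (P : Subgroup G → Prop) (ε : ℤ) {β : Type} [DecidableEq β] (r : m ⊕ m → β)
    (hr : ∀ a, r (Sum.inl a) = r (Sum.inr a)) (C : β → Subgroup G)
    (M : (Matrix (m ⊕ m) (m ⊕ m) (MonoidAlgebra R G))ˣ)
    (h1 : ∀ i j g, (M.val i j).coeff g ≠ 0 → r i = r j ∧ g ∈ C (r i))
    (hM : QIso ε M.val) (b : β) (hC : P (C b))
    (x : (Matrix (m ⊕ m) (m ⊕ m) (MonoidAlgebra R G))ˣ)
    (hx : x.val = rst r {b} M.val) (hx' : x⁻¹.val = rst r {b} M⁻¹.val) :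
    x ∈ PIso R G m P ε := by
  classical
  have h2 := inv_pattern r r C _ _ M.mul_inv M.inv_mul h1
  have z1 : ∀ i j, r i ≠ r j → M.val i j = 0 := fun i j h =>
    eq_zero_of fun g hg => h (h1 i j g hg).1
  have hb : ∀ i, r i = b ↔ r i ∈ ({b} : Finset β) := fun i => by simp
  have hsupp : ∀ (N : Matrix (m ⊕ m) (m ⊕ m) (MonoidAlgebra R G)),
      (∀ i j g, (N i j).coeff g ≠ 0 → r i = r j ∧ g ∈ C (r i)) →
      ∀ i j g, ((rst r {b} N) i j).coeff g ≠ 0 → g ∈ C b := by
    intro N hN i j g hg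
    simp only [rst] at hg
    by_cases hi : r i = b
    · rw [if_pos ((hb i).1 hi)] at hg
      rw [← hi]
      exact (hN i j g hg).2
    · rw [if_neg (fun h => hi ((hb i).2 h))] at hg
      rw [Matrix.one_apply] at hg
      split_ifs at hg with h5
      · exact one_supp _ g hg
      · exact absurd rfl hg
  have hglim : x ∈ glim R (m ⊕ m) (C b) := by
    apply mem_glim
    · rw [hx]; exact hsupp _ h1
    · rw [hx']; exact hsupp _ h2
  obtain ⟨y, hy⟩ := hglim
  let f := (C b).subtype
  have hf : Function.Injective f := (C b).subtype_injective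
  have hxy : x.val = y.val.map (MonoidAlgebra.mapDomain f) := by rw [← hy]; rfl
  have hyc : ∀ i j, y.val i j = MonoidAlgebra.comapDomain f hf (x.val i j) := by
    intro i j
    rw [hxy, Matrix.map_apply]
    apply MonoidAlgebra.mapDomain_injective hf
    symm
    apply MonoidAlgebra.mapDomain_comapDomain
    intro g hg
    replace hg := Finsupp.mem_support_iff.1 hg
    by_contra hcon
    apply hg
    rw [MonoidAlgebra.coeff_mapDomain]
    exact Finsupp.mapDomain_of_notMem_range _ _ hcon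
  have hyi : ∀ i j, r i = b → y.val i j = MonoidAlgebra.comapDomain f hf (M.val i j) := by
    intro i j hi
    rw [hyc, hx]
    simp only [rst]
    rw [if_pos ((hb i).1 hi)]
  have hyo : ∀ i j, r i ≠ b → y.val i j = (1 : Matrix (m ⊕ m) (m ⊕ m) _) i j := by
    intro i j hi
    rw [hyc, hx]
    simp only [rst]
    rw [if_neg (fun h => hi ((hb i).2 h)), Matrix.one_apply, Matrix.one_apply]
    split_ifs
    · exact comap_one' _ _
    · exact MonoidAlgebra.comapDomain_zero _ _
  refine Subgroup.subset_closure ⟨C b, y, hC, ?_, hxy⟩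
  rw [QIso_iff] at hM ⊢
  obtain ⟨χ, hχ⟩ := hM
  have hhyp : ∀ i j, MonoidAlgebra.comapDomain f hf (hyp R G m i j) = hyp R (C b) m i j := by
    intro i j
    have e1 : MonoidAlgebra.comapDomain f hf (0 : MonoidAlgebra R G) = 0 :=
      MonoidAlgebra.comapDomain_zero _ _
    rcases i with i | i <;> rcases j with j | j
    · exact e1
    · change MonoidAlgebra.comapDomain f hf ((1 : Matrix m m _) i j) = (1 : Matrix m m _) i j
      rw [Matrix.one_apply, Matrix.one_apply]
      split_ifs
      · exact comap_one' _ _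
      · exact e1
    · exact e1
    · exact e1
  have hhyp0 : ∀ i j, r i ≠ r j → hyp R (C b) m i j = 0 := by
    intro i j hij
    rcases i with i | i <;> rcases j with j | j
    · rfl
    · change (1 : Matrix m m _) i j = 0
      rw [Matrix.one_apply_ne]
      rintro rfl
      exact hij (hr i)
    · rfl
    · rfl
  refine ⟨fun i j => if r i = b ∧ r j = b then MonoidAlgebra.comapDomain f hf (χ i j) else 0,
    fun i j => ?_⟩
  beta_reduce
  by_cases hi : r i = b
  · by_cases hj : r j = b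
    · rw [if_pos ⟨hi, hj⟩, if_pos ⟨hj, hi⟩, ← comap_sbar, ← hhyp]
      have h3 : ∑ a, y.val i (Sum.inl a) * sbar 1 (y.val j (Sum.inr a))
          = MonoidAlgebra.comapDomain f hf
            (∑ a, M.val i (Sum.inl a) * sbar 1 (M.val j (Sum.inr a))) := by
        rw [comap_sum']
        refine Finset.sum_congr rfl fun a _ => ?_
        rw [hyi _ _ hi, hyi _ _ hj, ← comap_sbar, ← comap_mul_left]
        intro g hg
        have := (h1 _ _ _ hg).2
        rw [hi] at this
        simpa [f] using this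
      rw [h3, hχ]
      let F : MonoidAlgebra R G →+ MonoidAlgebra R (C b) :=
        MonoidAlgebra.comapDomainAddMonoidHom (R := R) f hf
      change F (hyp R G m i j + (χ i j - ε • sbar 1 (χ j i)))
        = F (hyp R G m i j) + (F (χ i j) - ε • F (sbar 1 (χ j i)))
      rw [map_add, map_sub, map_zsmul]
    · rw [if_neg (fun h => hj h.2), if_neg (fun h => hj h.1), sbar_zero, smul_zero, sub_zero,
        add_zero, hhyp0 i j (fun h => hj (by rw [← h, hi]))]
      refine Finset.sum_eq_zero fun a _ => ?_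
      rw [hyo _ _ hj]
      by_cases h4 : j = Sum.inr a
      · have h5 : y.val i (Sum.inl a) = 0 := by
          rw [hyi _ _ hi, z1 i (Sum.inl a) (fun h => hj (by rw [h4, ← hr a, ← h, hi]))]
          exact MonoidAlgebra.comapDomain_zero _ _
        rw [h5, zero_mul]
      · rw [Matrix.one_apply_ne h4, sbar_zero, mul_zero]
  · by_cases hj : r j = b
    · rw [if_neg (fun h => hi h.1), if_neg (fun h => hi h.2), sbar_zero, smul_zero, sub_zero,
        add_zero, hhyp0 i j (fun h => hi (by rw [h, hj]))]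
      refine Finset.sum_eq_zero fun a _ => ?_
      rw [hyo _ _ hi]
      by_cases h4 : i = Sum.inl a
      · have h5 : y.val j (Sum.inr a) = 0 := by
          rw [hyi _ _ hj, z1 j (Sum.inr a) (fun h => hi (by rw [h4, hr a, ← h, hj]))]
          exact MonoidAlgebra.comapDomain_zero _ _
        rw [h5, sbar_zero, mul_zero]
      · rw [Matrix.one_apply_ne h4, zero_mul]
    · rw [if_neg (fun h => hi h.1), if_neg (fun h => hi h.2), sbar_zero, smul_zero, sub_zero,
        add_zero]
      have h6 := q_apply (1 : Matrix (m ⊕ m) (m ⊕ m) (MonoidAlgebra R (C b))) i j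
      rw [sadj_one, Matrix.one_mul, Matrix.mul_one] at h6
      rw [h6]
      refine Finset.sum_congr rfl fun a _ => ?_
      rw [hyo _ _ hi, hyo _ _ hj]

/-- **Patterned isometries.** -/
theorem mem_PIso (P : Subgroup G → Prop) (ε : ℤ) {β : Type} [DecidableEq β] (r : m ⊕ m → β)
    (hr : ∀ a, r (Sum.inl a) = r (Sum.inr a)) (C : β → Subgroup G) (hC : ∀ i, P (C (r i)))
    (M : (Matrix (m ⊕ m) (m ⊕ m) (MonoidAlgebra R G))ˣ)
    (h1 : ∀ i j g, (M.val i j).coeff g ≠ 0 → r i = r j ∧ g ∈ C (r i))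
    (hM : QIso ε M.val) : M ∈ PIso R G m P ε :=
  mem_of_blocks r C M h1 _ fun i x hx hx' => block_isoP P ε r hr C M h1 hM (r i) (hC i) x hx hx'

theorem finite_of_relIndex (H K : Subgroup G) (hr : H.relIndex K ≠ 0) (hH : Finite H) :
    Finite K := by
  haveI h1 : (H.subgroupOf K).FiniteIndex := ⟨hr⟩
  haveI h2 : Finite (H.subgroupOf K) := by
    refine Finite.of_injective (β := H) (fun x => ⟨x.1.1, x.2⟩) ?_
    intro x y hxy
    have := congrArg Subtype.val hxy
    exact Subtype.ext (Subtype.ext this)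
  haveI h3 : Finite (K ⧸ H.subgroupOf K) := Subgroup.finite_quotient_of_finiteIndex
  exact Finite.of_equiv _ (Subgroup.groupEquivQuotientProdSubgroup (s := H.subgroupOf K)).symm

/-- **Structure of isometries of small span.** -/
theorem span_iso (P : Subgroup G → Prop) (hP : ∀ H K : Subgroup G, H ≤ K → P K → P H)
    (hP' : ∀ H K : Subgroup G, H ≤ K → H.relIndex K ≠ 0 → P H → P K)
    (ε : ℤ) (hε : ε * ε = 1)
    (α : (Matrix (m ⊕ m) (m ⊕ m) (MonoidAlgebra R G))ˣ) (hα : QIso ε α.val)
    (S : Matrix (m ⊕ m) (m ⊕ m) (MonoidAlgebra ℂ G)) (hS : Herm S)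
    (h3 : ∀ i j g, (α.val i j).coeff g ≠ 0 → (i = j ∧ g = 1) ∨ (S i j).coeff g ≠ 0)
    (hst : ∀ b, P (hst S hS b)) :
    ∃ u : m ⊕ m → G, (∀ c, u (Sum.inl c) = u (Sum.inr c)) ∧
      dmU R u * α * (dmU R u)⁻¹ ∈ PIso R G m P ε := by
  classical
  obtain ⟨ρ, u, C, hC, hρ, hu, hB⟩ := iso_struct P hP hP' ε hε α hα S hS h3 hst
  refine ⟨u, hu, mem_PIso P ε ρ hρ C (fun i => hC _) _ ?_ ?_⟩
  · intro i j g hg
    exact hB i j g (by simpa only [Units.val_mul] using hg)
  · rw [Units.val_mul, Units.val_mul]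
    exact ((QIso_dmU ε u hu).mul ε _ _ hα).mul ε _ _ ((QIso_dmU ε u hu).inv ε _)

theorem span_iso_vc (ε : ℤ) (hε : ε * ε = 1)
    (α : (Matrix (m ⊕ m) (m ⊕ m) (MonoidAlgebra R G))ˣ) (hα : QIso ε α.val)
    (S : Matrix (m ⊕ m) (m ⊕ m) (MonoidAlgebra ℂ G)) (hS : Herm S) (hB : BigOff S)
    (h3 : ∀ i j g, (α.val i j).coeff g ≠ 0 → (i = j ∧ g = 1) ∨ (S i j).coeff g ≠ 0)
    (s : ℝ) (hs : s ^ 2 ≤ 18) (hsp : SpanK S s) : α ∈ VCIso R G m ε := by
  obtain ⟨u, hu, hmem⟩ := span_iso IsVC (fun H K h hK => isVC_mono h hK)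
    (fun H K hle hr hH => isVC_of_relIndex H K hle hr hH) ε hε α hα S hS h3
    (fun b => hst_vc S hS hB s hs (spanLE_of_spanK S s hsp) b)
  have h1 : α = (dmU R u)⁻¹ * (dmU R u * α * (dmU R u)⁻¹) * dmU R u := by group
  rw [h1]
  have h2 := dmU_mem_VCIso (R := R) ε u hu
  exact mul_mem (mul_mem (inv_mem h2) hmem) h2

theorem span_iso_finite (ε : ℤ) (hε : ε * ε = 1)
    (α : (Matrix (m ⊕ m) (m ⊕ m) (MonoidAlgebra R G))ˣ) (hα : QIso ε α.val)
    (S : Matrix (m ⊕ m) (m ⊕ m) (MonoidAlgebra ℂ G)) (hS : Herm S) (hB : BigOff S)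
    (h3 : ∀ i j g, (α.val i j).coeff g ≠ 0 → (i = j ∧ g = 1) ∨ (S i j).coeff g ≠ 0)
    (s : ℝ) (hs : s < 4) (hsp : SpanK S s) :
    ∃ u : m ⊕ m → G, (∀ c, u (Sum.inl c) = u (Sum.inr c)) ∧
      dmU R u * α * (dmU R u)⁻¹ ∈ PIso R G m (fun C => Finite C) ε :=
  span_iso (fun C => Finite C) (fun _ _ h _ => Finite.of_injective _
    (Subgroup.inclusion_injective h)) (fun H K _ hr hH => finite_of_relIndex H K hr hH) ε hε α hα
    S hS h3 (fun b => hst_finite S hS hB s hs (spanLE_of_spanK S s hsp) b)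

end iso

end Pool.Agent.U731.SG
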