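import Pool.Agent.U731.SG.Sym
import Pool.Agent.TH6.CR.QMain

set_option autoImplicit false
set_option linter.unusedSectionVars false
set_option linter.unusedVariables false
set_option linter.style.haveILetI false

/-! Quadratic Poincaré complexes over `RG` which are supported in a hermitian complex matrix of small
spectral span. -/

namespace TH6.CR.U731

open Matrix TH57.Thr TH6.LF TH6.PF TH6.CX

section quad

variable {R : Type} [Ring R] [StarRing R] {G : Type} [Group G] {w : G →* ℤˣ} {ι : Type}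
  [Fintype ι] [DecidableEq ι]

set_option maxHeartbeats 4000000 in
/-- **Quadratic Poincaré complexes whose boundary operator and duality map have a block structure.** -/
theorem q_struct {H : Matrix ι ι (MonoidAlgebra R G) → Matrix ι ι (MonoidAlgebra R G)}
    (hH : Halver w H) {deg : ι → ℕ} {n : ℕ} {d : Matrix ι ι (MonoidAlgebra R G)}
    {ψ : ℕ → Matrix ι ι (MonoidAlgebra R G)} (h : IsQuadratic w deg n d ψ)
    {β : Type} [DecidableEq β] (ρ : ι → β) (u : ι → G) (C : β → Subgroup G)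
    (hst1 : ∀ i j g, (d i j).coeff g ≠ 0 → ρ i = ρ j ∧ u i * g * (u j)⁻¹ ∈ C (ρ i))
    (hst2 : ∀ i j g, ((ψ 0 + tw w deg (ψ 0)) i j).coeff g ≠ 0 →
      ρ i = ρ j ∧ u i * g * (u j)⁻¹ ∈ C (ρ i)) :
    ∃ (ψ' χ : ℕ → Matrix ι ι (MonoidAlgebra R G)),
      InBlocks ρ C (cu (dmU R u) d) ∧ (∀ k, InBlocks ρ C (ψ' k)) ∧
      IsQuadratic w deg n (cu (dmU R u) d) ψ' ∧
      (∀ s₀, IsCt (coneDeg deg n) (cone w deg n d ψ) s₀ →
        ∃ s, IsCt (coneDeg deg n) (cone w deg n (cu (dmU R u) d) ψ') s ∧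
          InBlocks (Sum.elim ρ ρ) C s) ∧
      (∀ k i j, χ k i j ≠ 0 → deg i + deg j + k = n + 1) ∧
      ∀ k, cq w (dmU R u) (ψ k) = ψ' k + qbd w deg n (cu (dmU R u) d) χ k := by
  classical
  set K := cone w deg n d ψ with hK
  set Φ := ψ 0 + tw w deg (ψ 0) with hΦ
  have hgrp : ∀ (a b g : G), a * (a⁻¹ * g * b) * b⁻¹ = g := fun a b g => by group
  have cd : ∀ (M : Matrix ι ι (MonoidAlgebra R G)) (i j : ι) (g : G),
      (cu (dmU R u) M i j).coeff g = (M i j).coeff ((u i)⁻¹ * g * u j) :=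
    fun M i j g => coeff_dmU u u M i j g
  have hdB : InBlocks ρ C (cu (dmU R u) d) := by
    intro i j g hne
    rw [cd] at hne
    have h1 := hst1 i j _ hne
    exact ⟨h1.1, by have := h1.2; rwa [hgrp] at this⟩
  have hΦB : InBlocks ρ C (cq w (dmU R u) Φ) := by
    intro i j g hne
    rw [coeff_cq] at hne
    have hne' : (Φ i j).coeff ((u i)⁻¹ * g * u j) ≠ 0 := fun h0 => hne (by rw [h0, smul_zero])
    have h1 := hst2 i j _ hne'
    exact ⟨h1.1, by have := h1.2; rwa [hgrp] at this⟩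
  have hQ1 := quadratic_cq u h
  have hQ2 := quadratic_tct ρ C hQ1 hdB
  have hQ3 := quadratic_sub hQ1 hQ2
  set ψ' : ℕ → Matrix ι ι (MonoidAlgebra R G) :=
    fun k => tct ρ C (cq w (dmU R u) (ψ k)) with hψ'
  set δ : ℕ → Matrix ι ι (MonoidAlgebra R G) := fun k => cq w (dmU R u) (ψ k) - ψ' k with hδ
  have hΦ' : ψ' 0 + tw w deg (ψ' 0) = cq w (dmU R u) Φ := by
    rw [← tct_of_inBlocks ρ C _ hΦB, hΦ, cq_add, tct_add, ← tw_cq, tct_tw]
  have hδ0 : δ 0 + tw w deg (δ 0) = 0 := by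
    change (cq w (dmU R u) (ψ 0) - ψ' 0) + tw w deg (cq w (dmU R u) (ψ 0) - ψ' 0) = 0
    rw [tw_sub, tw_cq]
    have : cq w (dmU R u) (ψ 0) - ψ' 0 + (cq w (dmU R u) (tw w deg (ψ 0)) - tw w deg (ψ' 0))
        = cq w (dmU R u) (ψ 0 + tw w deg (ψ 0)) - (ψ' 0 + tw w deg (ψ' 0)) := by
      rw [cq_add]; abel
    rw [this, hΦ', hΦ, sub_self]
  have hδt : ∀ k, tct ρ C (δ k) = 0 := by
    intro k
    change tct ρ C (cq w (dmU R u) (ψ k) - tct ρ C (cq w (dmU R u) (ψ k))) = 0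
    rw [tct_sub, tct_tct, sub_self]
  have hχ := chi_spec hH ρ C deg n (cu (dmU R u) d) δ hQ3 hdB hδt hδ0
  -- the cone
  let U : ι ⊕ ι → G := Sum.elim u u
  let E : ι ⊕ ι → ℤˣ := Sum.elim 1 (fun i => w (u i))
  have hcone : cone w deg n (cu (dmU R u) d) ψ' = cu (dsu E U) K := by
    ext p q g
    rw [coeff_cu]
    rcases p with i | i <;> rcases q with j | j
    · change (cu (dmU R u) d i j).coeff g
        = (((1 : ℤˣ) : ℤ) * ((1 : ℤˣ) : ℤ)) • (d i j).coeff ((u i)⁻¹ * g * u j)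
      rw [cd]
      simp
    · change (0 : R) = _ • (0 : R)
      rw [smul_zero]
    · change ((ψ' 0 + tw w deg (ψ' 0)) i j).coeff g
        = (((w (u i) : ℤˣ) : ℤ) * ((1 : ℤˣ) : ℤ)) • (Φ i j).coeff ((u i)⁻¹ * g * u j)
      rw [hΦ', coeff_cq]
      simp
    · change ((-1 : ℤ) ^ (n + deg j) • sbar w (cu (dmU R u) d j i)).coeff g
        = (((w (u i) : ℤˣ) : ℤ) * ((w (u j) : ℤˣ) : ℤ)) •
          ((-1 : ℤ) ^ (n + deg j) • sbar w (d j i)).coeff ((u i)⁻¹ * g * u j)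
      rw [coeff_zs, coeff_zs, coeff_sbar, coeff_sbar, cd]
      have e1 : (u j)⁻¹ * g⁻¹ * u i = ((u i)⁻¹ * g * u j)⁻¹ := by group
      have e2 : ((w ((u i)⁻¹ * g * u j) : ℤˣ) : ℤ)
          = ((w (u i) : ℤˣ) : ℤ) * ((w g : ℤˣ) : ℤ) * ((w (u j) : ℤˣ) : ℤ) := by
        rw [map_mul, map_mul, Units.val_mul, Units.val_mul, w_inv]
      rw [e1, e2]
      simp only [smul_smul]
      congr 1
      have h1 := w_sq w (u i)
      have h2 := w_sq w (u j)
      linear_combination (-((-1 : ℤ) ^ (n + deg j) * ((w g : ℤˣ) : ℤ) * ((w (u j) : ℤˣ) : ℤ)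
        * ((w (u j) : ℤˣ) : ℤ))) * h1 - ((-1 : ℤ) ^ (n + deg j) * ((w g : ℤˣ) : ℤ)) * h2
  have hKB : InBlocks (Sum.elim ρ ρ) C (cu (dsu E U) K) := by
    rw [← hcone]
    intro p q g hne
    rcases p with i | i <;> rcases q with j | j
    · exact hdB i j g hne
    · exact absurd rfl hne
    · change ((ψ' 0 + tw w deg (ψ' 0)) i j).coeff g ≠ 0 at hne
      rw [hΦ'] at hne
      exact hΦB i j g hne
    · change ((-1 : ℤ) ^ (n + deg j) • sbar w (cu (dmU R u) d j i)).coeff g ≠ 0 at hne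
      have h1 : (sadj w (cu (dmU R u) d) i j).coeff g ≠ 0 := by
        intro h0
        apply hne
        rw [coeff_zs]
        change (-1 : ℤ) ^ (n + deg j) • (sadj w (cu (dmU R u) d) i j).coeff g = 0
        rw [h0, smul_zero]
      exact inBlocks_adj ρ C w hdB i j g h1
  refine ⟨ψ', chi w H deg n (cu (dmU R u) d) δ, hdB, fun k => tct_inBlocks ρ C _, hQ2, ?_,
    fun k => chi_degree hH deg n (cu (dmU R u) d) hQ3.boundary δ hQ3.degree k, ?_⟩
  · intro s₀ hs₀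
    have hct := ct_cu E U hs₀
    have hct2 := tct_ct (coneDeg deg n) (Sum.elim ρ ρ) C (cu (dsu E U) K) (cu (dsu E U) s₀) hct hKB
    refine ⟨tct (Sum.elim ρ ρ) C (cu (dsu E U) s₀), ?_, tct_inBlocks _ _ _⟩
    rw [hcone]
    exact hct2
  · intro k
    rw [← hχ k]
    change cq w (dmU R u) (ψ k) = ψ' k + (cq w (dmU R u) (ψ k) - ψ' k)
    abel

end quad

end TH6.CR.U731

namespace Pool.Agent.U731.SG

open Matrix TH57.Thr TH6.LF TH6.PF Pool.Agent.U731.SP

section span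

variable {R : Type} [Ring R] {G : Type} [Group G] {κ : Type} [Fintype κ] [DecidableEq κ]

/-- `A` and `B` are supported, apart from identities on the diagonal, in one hermitian complex matrix
with span at most `s` whose nonzero coefficients, except those of the identity on the diagonal, have
absolute value at least one. -/
def JointSpan (A B : Matrix κ κ (MonoidAlgebra R G)) (s : ℝ) : Prop :=
  ∃ S : Matrix κ κ (MonoidAlgebra ℂ G),
    (∀ i j g, (S j i).coeff g⁻¹ = (starRingEnd ℂ) ((S i j).coeff g)) ∧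
    (∀ i j g, (S i j).coeff g ≠ 0 → (i = j ∧ g = 1) ∨ 1 ≤ ‖(S i j).coeff g‖) ∧
    (∀ i j g, (A i j).coeff g ≠ 0 → (i = j ∧ g = 1) ∨ (S i j).coeff g ≠ 0) ∧
    (∀ i j g, (B i j).coeff g ≠ 0 → (i = j ∧ g = 1) ∨ (S i j).coeff g ≠ 0) ∧ SpanK S s

/-- the block structure of two matrices with small joint span -/
theorem jointSpan_struct (s : ℝ) (hs : s ^ 2 ≤ 18) (A B : Matrix κ κ (MonoidAlgebra R G))
    (h : JointSpan A B s) :
    ∃ (ρ : κ → κ) (u : κ → G) (C : κ → Subgroup G),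
      (∀ a, (∃ z : C a, (Subgroup.zpowers z).FiniteIndex) ∧ (s < 4 → Finite (C a))) ∧
      (∀ i j g, (A i j).coeff g ≠ 0 → ρ i = ρ j ∧ u i * g * (u j)⁻¹ ∈ C (ρ i)) ∧
      ∀ i j g, (B i j).coeff g ≠ 0 → ρ i = ρ j ∧ u i * g * (u j)⁻¹ ∈ C (ρ i) := by
  obtain ⟨S, h1, h2, h3, h3', h4⟩ := h
  have h5 := spanLE_of_spanK S s h4
  obtain ⟨ρ, u, C, hC, hst⟩ := herm_struct_gen S h1
    (fun C => (∃ z : C, (Subgroup.zpowers z).FiniteIndex) ∧ (s < 4 → Finite C))
    fun b => ⟨hst_vc S h1 h2 s hs h5 b, fun hs4 => hst_finite S h1 h2 s hs4 h5 b⟩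
  have key : ∀ i j g, ((i = j ∧ g = 1) ∨ (S i j).coeff g ≠ 0) →
      ρ i = ρ j ∧ u i * g * (u j)⁻¹ ∈ C (ρ i) := by
    rintro i j g (⟨h6, h7⟩ | h6)
    · subst h6 h7
      refine ⟨rfl, ?_⟩
      rw [mul_one, mul_inv_cancel]
      exact one_mem _
    · exact hst i j g h6
  exact ⟨ρ, u, C, hC, fun i j g hg => key i j g (h3 i j g hg),
    fun i j g hg => key i j g (h3' i j g hg)⟩

end span

end Pool.Agent.U731.SG
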