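import Pool.Agent.U731.SG.BassSym

set_option autoImplicit false

/-! Stabilisation of idempotent matrices and their traces. -/

namespace Pool.Agent.U731.SG

open Matrix

/-- the trace of the sum with an identity matrix, for elements different from the identity -/
theorem tau_stable {R : Type} [CommRing R] {G : Type} [Group G] {k m : ℕ}
    (A : Matrix (Fin k) (Fin k) (MonoidAlgebra R G)) (g : G) (hg : g ≠ 1) :
    Pool.Agent.H26R2.Bass.tau ((fromBlocks A 0 0 (1 : Matrix (Fin m) (Fin m) (MonoidAlgebra R G))).submatrix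
      finSumFinEquiv.symm finSumFinEquiv.symm) g = Pool.Agent.H26R2.Bass.tau A g := by
  unfold Pool.Agent.H26R2.Bass.tau
  rw [← Equiv.sum_comp finSumFinEquiv]
  simp only [Matrix.submatrix_apply, Equiv.symm_apply_apply]
  rw [Fintype.sum_sum_type]
  have h1 : ∑ i : Fin m, ∑ᶠ (h : G) (_ : IsConj h g),
      ((fromBlocks A 0 0 (1 : Matrix (Fin m) (Fin m) (MonoidAlgebra R G))) (Sum.inr i)
        (Sum.inr i)).coeff h = 0 := by
    refine Finset.sum_eq_zero fun i _ => ?_
    classical
    refine finsum_eq_zero_of_forall_eq_zero fun h => ?_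
    rw [finsum_eq_if]
    split_ifs with hc
    · rw [Matrix.fromBlocks_apply₂₂, Matrix.one_apply_eq, MonoidAlgebra.one_def,
        MonoidAlgebra.coeff_single, Finsupp.single_apply, if_neg]
      intro h2
      rw [← h2] at hc
      exact hg (isConj_one_right.1 hc)
    · rfl
  rw [h1, add_zero]
  rfl

/-- the row space of the sum with an identity matrix -/
theorem range_stable {S : Type} [Ring S] {k m : ℕ} (A : Matrix (Fin k) (Fin k) S) :
    Nonempty (LinearMap.range ((fromBlocks A 0 0 (1 : Matrix (Fin m) (Fin m) S)).submatrix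
      finSumFinEquiv.symm finSumFinEquiv.symm).vecMulLinear ≃ₗ[S]
      ((Fin m → S) × LinearMap.range A.vecMulLinear)) := by
  set B := (fromBlocks A 0 0 (1 : Matrix (Fin m) (Fin m) S)).submatrix
      finSumFinEquiv.symm finSumFinEquiv.symm with hB
  let L : (Fin (k + m) → S) ≃ₗ[S] ((Fin m → S) × (Fin k → S)) :=
    (LinearEquiv.funCongrLeft S S finSumFinEquiv).trans
      ((LinearEquiv.sumArrowLequivProdArrow (Fin k) (Fin m) S S).trans
        (LinearEquiv.prodComm S _ _))
  have hL : ∀ x, L x = (fun i => x (finSumFinEquiv (Sum.inr i)),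
      fun i => x (finSumFinEquiv (Sum.inl i))) := fun x => rfl
  have hv : ∀ x, L (x ᵥ* B) = (fun i => x (finSumFinEquiv (Sum.inr i)),
      (fun i => x (finSumFinEquiv (Sum.inl i))) ᵥ* A) := by
    intro x
    rw [hL]
    have h1 : ∀ p, (x ᵥ* B) (finSumFinEquiv p)
        = ((x ∘ finSumFinEquiv) ᵥ* fromBlocks A 0 0 (1 : Matrix (Fin m) (Fin m) S)) p := by
      intro p
      simp only [Matrix.vecMul, dotProduct, hB, Matrix.submatrix_apply, Equiv.symm_apply_apply]
      rw [← Equiv.sum_comp finSumFinEquiv]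
      simp only [Equiv.symm_apply_apply, Function.comp_apply]
    simp only [h1, Matrix.vecMul_fromBlocks, Matrix.vecMul_zero, zero_add, add_zero,
      Matrix.vecMul_one]
    rfl
  have hmap : (LinearMap.range B.vecMulLinear).map L.toLinearMap
      = (⊤ : Submodule S (Fin m → S)).prod (LinearMap.range A.vecMulLinear) := by
    ext y
    constructor
    · rintro ⟨_, ⟨x, rfl⟩, rfl⟩
      rw [Matrix.vecMulLinear_apply]
      change L (x ᵥ* B) ∈ _
      rw [hv]
      exact ⟨trivial, ⟨_, rfl⟩⟩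
    · rintro ⟨-, ⟨z, hz⟩⟩
      refine ⟨_, ⟨L.symm (y.1, z), rfl⟩, ?_⟩
      rw [Matrix.vecMulLinear_apply]
      change L (L.symm (y.1, z) ᵥ* B) = y
      rw [hv]
      have h2 := hL (L.symm (y.1, z))
      rw [LinearEquiv.apply_symm_apply] at h2
      have h3 := (Prod.ext_iff.1 h2).1
      have h4 := (Prod.ext_iff.1 h2).2
      simp only at h3 h4
      apply Prod.ext
      · exact h3.symm
      · rw [← h4]
        exact hz
  let e1 := L.submoduleMap (LinearMap.range B.vecMulLinear)
  let e2 := LinearEquiv.ofEq _ _ hmap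
  let e3 : ((⊤ : Submodule S (Fin m → S)).prod (LinearMap.range A.vecMulLinear)) ≃ₗ[S]
      ((Fin m → S) × LinearMap.range A.vecMulLinear) :=
    { toFun := fun y => (y.1.1, ⟨y.1.2, y.2.2⟩)
      map_add' := fun _ _ => rfl
      map_smul' := fun _ _ => rfl
      invFun := fun z => ⟨(z.1, z.2.1), trivial, z.2.2⟩
      left_inv := fun _ => rfl
      right_inv := fun _ => rfl }
  exact ⟨(e1.trans e2).trans e3⟩


section main

open TH57.Thr TH6.LF TH6.PF Pool.Agent.N510 Pool.Agent.U731.SP ComplexConjugate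

/-- **Modules which are stably presented by a square matrix with a block structure.** -/
theorem bass_stable {R : Type} [CommRing R] [IsDomain R] {G : Type} [Group G] {k m n : ℕ}
    (A : Matrix (Fin k) (Fin k) (MonoidAlgebra R G)) (hA : A * A = A)
    (M : Matrix (Fin n) (Fin n) (MonoidAlgebra R G))
    (ρ : Fin n → Fin n) (u : Fin n → G) (C : Fin n → Subgroup G) (hC : ∀ a, IsVC (C a))
    (hst : ∀ i j g, (M i j).coeff g ≠ 0 → ρ i = ρ j ∧ u i * g * (u j)⁻¹ ∈ C (ρ i))
    (φ : ((Fin m → MonoidAlgebra R G) × LinearMap.range A.vecMulLinear) ≃ₗ[MonoidAlgebra R G]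
      Coker M)
    (g : G) (hg : ¬ IsUnit ((orderOf g : ℕ) : R)) : Pool.Agent.H26R2.Bass.tau A g = 0 := by
  have hg1 : g ≠ 1 := by
    rintro rfl
    exact hg (by rw [orderOf_one, Nat.cast_one]; exact isUnit_one)
  set B := (fromBlocks A 0 0 (1 : Matrix (Fin m) (Fin m) (MonoidAlgebra R G))).submatrix
      finSumFinEquiv.symm finSumFinEquiv.symm with hB
  have hBB : B * B = B := by
    rw [hB, Matrix.submatrix_mul_equiv, Matrix.fromBlocks_multiply]
    simp [hA]
  obtain ⟨ψ⟩ := range_stable (m := m) A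
  rw [← tau_stable (m := m) A g hg1]
  exact bass_struct_module B hBB M ρ u C hC hst (ψ.trans φ) g hg

/-- **Projections with large coefficients.** -/
theorem bass_proj {R : Type} [CommRing R] [IsDomain R] (σ : R →+* ℂ)
    (hσ : Function.Injective σ) {G : Type} [Group G] {n : ℕ}
    (A : Matrix (Fin n) (Fin n) (MonoidAlgebra R G)) (hA : A * A = A)
    (hherm : ∀ i j g, σ ((A j i).coeff g⁻¹) = conj (σ ((A i j).coeff g))) (δ : ℝ) (hδ : 0 < δ)
    (hbig : ∀ i j g, (A i j).coeff g ≠ 0 → (i = j ∧ g = 1) ∨ δ ≤ ‖σ ((A i j).coeff g)‖)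
    (h18 : 1 ≤ 18 * δ ^ 2) (g : G) (hg : ¬ IsUnit ((orderOf g : ℕ) : R)) :
    Pool.Agent.H26R2.Bass.tau A g = 0 := by
  let A' : Matrix (Fin n) (Fin n) (MonoidAlgebra ℂ G) := A.map (MonoidAlgebra.mapRingHom G σ)
  have hc : ∀ i j g, (A' i j).coeff g = σ ((A i j).coeff g) := fun i j g => by
    simp [A', MonoidAlgebra.coeff_mapRingHom]
  have hA' : A' * A' = A' := by
    simp only [A']
    rw [← Matrix.map_mul, hA]
  have h0 : ∀ i j g, (A i j).coeff g ≠ 0 ↔ (A' i j).coeff g ≠ 0 := by
    intro i j g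
    rw [hc, Ne, Ne, map_eq_zero_iff σ hσ]
  obtain ⟨ρ, u, C, hC, hst⟩ := (struct_idem (A := A')
    (fun i j g => by rw [hc, hc, hherm]) hA' δ hδ
    (fun i j g h => by
      rw [hc]
      exact hbig i j g ((h0 i j g).2 h))).1 h18
  exact bass_struct_idem A hA ρ u C hC (fun i j g h => hst i j g ((h0 i j g).1 h)) g hg

end main

end Pool.Agent.U731.SG
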